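import Pool.Agent.H763_mp.Ker
import Pool.Agent.H498R2.KlWeil
import Pool.Agent.Y951.WP.Main

set_option autoImplicit false

/-! The kernels: products, polynomials of the sum, inverses of the sum. -/

namespace Pool.Agent.H763_mp

open Finset Filter Polynomial
open Pool.Agent.W147.PS (ff)

lemma drop_zero (P : ℕ) [Fact P.Prime] (G : ZMod P → ZMod P) (C : ℝ)
    (h : ‖∑ x : ZMod P, (ZMod.stdAddChar (N := P)) (G x)‖ ≤ C) :
    ‖∑ x : ZMod P, (if x ∈ ({0} : Finset (ZMod P)) then (0 : ℂ) else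
      (ZMod.stdAddChar (N := P)) (G x))‖ ≤ C + 1 := by
  have h1 : ∑ x : ZMod P, (if x ∈ ({0} : Finset (ZMod P)) then (0 : ℂ) else
      (ZMod.stdAddChar (N := P)) (G x)) =
      ∑ x : ZMod P, (ZMod.stdAddChar (N := P)) (G x) - (ZMod.stdAddChar (N := P)) (G 0) := by
    have h2 : ∀ x : ZMod P, (if x ∈ ({0} : Finset (ZMod P)) then (0 : ℂ) else
        (ZMod.stdAddChar (N := P)) (G x)) = (ZMod.stdAddChar (N := P)) (G x) -
        (if x = 0 then (ZMod.stdAddChar (N := P)) (G 0) else 0) := by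
      intro x
      by_cases hx : x = 0
      · subst hx
        simp
      · rw [if_neg (by rw [mem_singleton]; exact hx), if_neg hx, sub_zero]
    rw [sum_congr rfl (fun x _ => h2 x), sum_sub_distrib, sum_ite_eq' univ (0 : ZMod P),
      if_pos (mem_univ _)]
  rw [h1]
  have h3 : ‖(ZMod.stdAddChar (N := P)) (G 0)‖ = 1 := AddChar.norm_apply _ _
  calc _ ≤ ‖∑ x : ZMod P, (ZMod.stdAddChar (N := P)) (G x)‖ + ‖(ZMod.stdAddChar (N := P)) (G 0)‖ :=
        norm_sub_le _ _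
    _ ≤ C + 1 := by rw [h3]; linarith

lemma sqrt_ge_one {P : ℕ} (hP : P.Prime) : 1 ≤ Real.sqrt P := by
  rw [Real.one_le_sqrt]
  exact_mod_cast hP.one_lt.le

/-- polynomials -/
lemma poly_bound (P : ℕ) [Fact P.Prime] (φ : (ZMod P)[X]) (h2 : 2 ≤ φ.natDegree)
    (hD : φ.natDegree < P) (k c : ZMod P) (hk : k ≠ 0) :
    ‖∑ x : ZMod P, (if x ∈ ({0} : Finset (ZMod P)) then (0 : ℂ) else
      (ZMod.stdAddChar (N := P)) (k * φ.eval x + c * x))‖ ≤ φ.natDegree * Real.sqrt P := by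
  have hP : P.Prime := Fact.out
  have h1 : (C k * φ + C c * X).natDegree = φ.natDegree := by
    have h3 : (C k * φ).natDegree = φ.natDegree := natDegree_C_mul hk
    have h4 : (C c * X : (ZMod P)[X]).natDegree ≤ 1 :=
      (natDegree_C_mul_le c X).trans natDegree_X_le
    rw [natDegree_add_eq_left_of_natDegree_lt (by rw [h3]; omega), h3]
  have h5 := Pool.Agent.Y951.WP.weil_le P (C k * φ + C c * X) (by
    rw [h1]
    intro hd
    have := Nat.le_of_dvd (by omega) hd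
    omega) (ZMod.isPrimitive_stdAddChar P)
  rw [h1] at h5
  have h6 : ∀ x : ZMod P, (C k * φ + C c * X).eval x = k * φ.eval x + c * x := by
    intro x
    simp
  rw [sum_congr rfl (fun x _ => by rw [h6 x])] at h5
  refine (drop_zero P _ _ h5).trans ?_
  have h7 := sqrt_ge_one hP
  have h8 : ((φ.natDegree - 1 : ℕ) : ℝ) = φ.natDegree - 1 := by
    push_cast [Nat.cast_sub (show 1 ≤ φ.natDegree by omega)]
    ring
  rw [h8]
  nlinarith

/-- inverses -/
lemma inv_bound (P : ℕ) [Fact P.Prime] (hP2 : P ≠ 2) (α : ZMod P) (hα : α ≠ 0) (k c : ZMod P)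
    (hk : k ≠ 0) :
    ‖∑ x : ZMod P, (if x ∈ ({0} : Finset (ZMod P)) then (0 : ℂ) else
      (ZMod.stdAddChar (N := P)) (k * (α * x⁻¹) + c * x))‖ ≤ 2 * Real.sqrt P := by
  have hP : P.Prime := Fact.out
  have h7 := sqrt_ge_one hP
  have hkα : k * α ≠ 0 := mul_ne_zero hk hα
  by_cases hc : c = 0
  · subst hc
    have h1 : ∑ x : ZMod P, (ZMod.stdAddChar (N := P)) (k * (α * x⁻¹) + 0 * x) = 0 := by
      have h2 : ∑ x : ZMod P, (ZMod.stdAddChar (N := P)) (k * (α * x⁻¹) + 0 * x) =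
          ∑ y : ZMod P, (ZMod.stdAddChar (N := P)) (y * (k * α)) := by
        refine Fintype.sum_equiv (Equiv.inv (ZMod P)) _ _ fun x => ?_
        congr 1
        simp only [Equiv.inv_apply]
        ring
      rw [h2, sum_std, if_neg hkα]
    refine (drop_zero P _ 0 (by rw [h1, norm_zero])).trans ?_
    linarith
  · have h8 := Pool.Agent.H498R2.Kl.kloosterman_le (F := ZMod P) (by
      rw [ZMod.ringChar_zmod_n]
      exact hP2) (ZMod.isPrimitive_stdAddChar P) (a := c) (b := k * α) hc hkα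
    rw [ZMod.card] at h8
    have h9 : ∀ x : ZMod P, (if x ∈ ({0} : Finset (ZMod P)) then (0 : ℂ) else
        (ZMod.stdAddChar (N := P)) (k * (α * x⁻¹) + c * x)) =
        (if x = 0 then (0 : ℂ) else (ZMod.stdAddChar (N := P)) (c * x + k * α * x⁻¹)) := by
      intro x
      have h10 : k * (α * x⁻¹) + c * x = c * x + k * α * x⁻¹ := by ring
      rw [h10]
      by_cases hx : x = 0
      · simp [hx]
      · rw [if_neg (by rw [mem_singleton]; exact hx), if_neg hx]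
    rw [sum_congr rfl (fun x _ => h9 x)]
    exact h8

/-- the kernels -/
def Ker (D P : ℕ) [Fact P.Prime] (K : ZMod P → ZMod P → ZMod P) : Prop :=
  (∀ a b, K a b = a * b) ∨
  (∃ φ : (ZMod P)[X], 2 ≤ φ.natDegree ∧ φ.natDegree ≤ D ∧ ∀ a b, K a b = φ.eval (a + b)) ∨
  (∃ α : ZMod P, α ≠ 0 ∧ ∀ a b, K a b = α * (a + b)⁻¹)

theorem all_kernels (ε : ℝ) (hε : 0 < ε) (D : ℕ) : ∃ κ : ℝ, 0 < κ ∧ ∃ P₀ : ℕ,
    ∀ P : ℕ, P₀ ≤ P → ∀ [Fact P.Prime], ∀ K : ZMod P → ZMod P → ZMod P, Ker D P K →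
    ∀ A B : Finset (ZMod P), (P : ℝ) ^ (1 + ε) ≤ (A.card : ℝ) * B.card →
    ∀ f g : ZMod P → ZMod P, ∃ a ∈ A, ∃ b ∈ B, a + b ≠ 0 ∧
      P ≤ 2 * (K a b + f a + g b).val ∧ ∀ q : ℕ, q.Prime →
      κ * ff P < |(q : ℝ) - ((K a b + f a + g b).val : ℕ)| := by
  classical
  obtain ⟨κ, hκ, P₁, h⟩ := kernel (min ε 1) (lt_min hε one_pos) (min_le_right _ _) (D + 2)
  refine ⟨κ, hκ, max P₁ (D + 3), fun P hP hPf K hK A B hAB f g => ?_⟩
  have hPp : P.Prime := hPf.out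
  have hP1 : (1 : ℝ) ≤ P := by exact_mod_cast hPp.one_lt.le
  have hPD : D + 3 ≤ P := (le_max_right _ _).trans hP
  have hsq := sqrt_ge_one hPp
  have hAB' : (P : ℝ) ^ (1 + min ε 1) ≤ (A.card : ℝ) * B.card :=
    (Real.rpow_le_rpow_of_exponent_le hP1 (by
      have := min_le_left ε 1
      linarith)).trans hAB
  have key : ∀ Φ : ZMod P → ZMod P, (∀ k : ZMod P, k ≠ 0 → ∀ c : ZMod P,
      ‖∑ x : ZMod P, (if x ∈ ({0} : Finset (ZMod P)) then (0 : ℂ) else
        (ZMod.stdAddChar (N := P)) (k * Φ x + c * x))‖ ≤ ((D + 2 : ℕ) : ℝ) * Real.sqrt P) →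
      ∀ f g : ZMod P → ZMod P, ∃ a ∈ A, ∃ b ∈ B, a + b ≠ 0 ∧
        P ≤ 2 * (Φ (a + b) + f a + g b).val ∧ ∀ q : ℕ, q.Prime →
        κ * ff P < |(q : ℝ) - ((Φ (a + b) + f a + g b).val : ℕ)| := by
    intro Φ hΦ f g
    obtain ⟨a, ha, b, hb, h1, h2⟩ := h P ((le_max_left _ _).trans hP) {0} Φ
      (by rw [card_singleton]; omega) hΦ A B hAB' f g
    exact ⟨a, ha, b, hb, by rwa [mem_singleton] at h1, h2⟩
  rcases hK with hK | ⟨φ, hφ2, hφD, hK⟩ | ⟨α, hα, hK⟩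
  · have h2 : (2 : ZMod P) ≠ 0 := by
      intro h0
      have h1 : ((2 : ℕ) : ZMod P) = 0 := by exact_mod_cast h0
      rw [ZMod.natCast_eq_zero_iff] at h1
      have := Nat.le_of_dvd (by norm_num) h1
      omega
    have hdeg : (C ((2 : ZMod P)⁻¹) * X ^ 2 : (ZMod P)[X]).natDegree = 2 :=
      natDegree_C_mul_X_pow 2 _ (inv_ne_zero h2)
    obtain ⟨a, ha, b, hb, h3, h4, h5⟩ := key
      (fun x => (C ((2 : ZMod P)⁻¹) * X ^ 2 : (ZMod P)[X]).eval x) (fun k hk c => by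
        refine (poly_bound P _ hdeg.ge (by rw [hdeg]; omega) k c hk).trans ?_
        rw [hdeg]
        gcongr
        omega) (fun a => f a - 2⁻¹ * a ^ 2) (fun b => g b - 2⁻¹ * b ^ 2)
    have h6 : (C ((2 : ZMod P)⁻¹) * X ^ 2 : (ZMod P)[X]).eval (a + b) + (f a - 2⁻¹ * a ^ 2) +
        (g b - 2⁻¹ * b ^ 2) = K a b + f a + g b := by
      rw [hK]
      simp only [eval_mul, eval_C, eval_pow, eval_X]
      have h7 : (2 : ZMod P)⁻¹ * 2 = 1 := inv_mul_cancel₀ h2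
      linear_combination (a * b) * h7
    simp only [h6] at h4 h5
    exact ⟨a, ha, b, hb, h3, h4, h5⟩
  · obtain ⟨a, ha, b, hb, h3, h4, h5⟩ := key (fun x => φ.eval x) (fun k hk c => by
        refine (poly_bound P φ hφ2 (by omega) k c hk).trans ?_
        gcongr
        omega) f g
    refine ⟨a, ha, b, hb, h3, ?_⟩
    rw [hK]
    exact ⟨h4, h5⟩
  · obtain ⟨a, ha, b, hb, h3, h4, h5⟩ := key (fun x => α * x⁻¹) (fun k hk c => by
        refine (inv_bound P (by omega) α hα k c hk).trans ?_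
        gcongr
        push_cast
        have : (0 : ℝ) ≤ D := Nat.cast_nonneg _
        linarith) f g
    refine ⟨a, ha, b, hb, h3, ?_⟩
    rw [hK]
    exact ⟨h4, h5⟩

end Pool.Agent.H763_mp
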