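import Pool.Agent.TH915.PW.Disc
import Pool.Agent.TH915.PW.Crit
import Pool.Agent.W147.PS.Scale

set_option autoImplicit false

/-! The criterion: a family of residues modulo a prime with small exponential sums has a member whose
least residue lies in a record gap. -/

namespace Pool.Agent.H763_mp

open Finset Filter
open Pool.Agent.H469R2.NK (e norm_e e_add)
open Pool.Agent.TH915.PW (crit disc)
open Pool.Agent.W147.PS (ff ff_compare ev_pow)

lemma e_std (P : ℕ) [NeZero P] (n : ℕ) : e ((n : ℝ) / P) = ZMod.stdAddChar ((n : ℕ) : ZMod P) := by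
  have h := ZMod.stdAddChar_coe (N := P) (n : ℤ)
  have h1 : (((n : ℤ) : ZMod P)) = ((n : ℕ) : ZMod P) := by push_cast; rfl
  rw [h1] at h
  rw [h]
  unfold Pool.Agent.H469R2.NK.e
  congr 1
  push_cast
  ring

/-- the residue class of the least residue as a condition on the residue of `(x - r) / q` -/
lemma class_iff2 (P q : ℕ) [Fact P.Prime] (hq : 0 < q) (hqP : 2 * q ≤ P) (r : ℤ) :
    ∃ r' : ℕ, r' < q ∧ ∀ x : ZMod P,
      (((q : ℤ) ∣ ((x.val : ℕ) : ℤ) - r ∧ P ≤ 2 * x.val) ↔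
        ((((P : ℝ) / 2 - r') / (q * P) ≤ Int.fract ((((q : ZMod P)⁻¹ * (x - r')).val : ℝ) / P)) ∧
          Int.fract ((((q : ZMod P)⁻¹ * (x - r')).val : ℝ) / P) < ((P : ℝ) - r') / (q * P))) := by
  have hP : P.Prime := Fact.out
  have hP0 : 0 < P := hP.pos
  have hq' : (0 : ℤ) < q := by exact_mod_cast hq
  have hPr : (0 : ℝ) < P := by exact_mod_cast hP0
  have hqr : (0 : ℝ) < q := by exact_mod_cast hq
  obtain ⟨r', hr'⟩ : ∃ r' : ℕ, (r' : ℤ) = r % q :=
    ⟨(r % q).toNat, Int.toNat_of_nonneg (Int.emod_nonneg _ hq'.ne')⟩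
  have hr'q : r' < q := by
    have := Int.emod_lt_of_pos r hq'
    omega
  have hrr : (q : ℤ) ∣ r - r' := by
    rw [hr']
    refine ⟨r / q, ?_⟩
    have := Int.emod_add_mul_ediv r q
    linarith
  refine ⟨r', hr'q, fun x => ?_⟩
  have hq0 : (q : ZMod P) ≠ 0 := by
    intro h0
    rw [ZMod.natCast_eq_zero_iff] at h0
    have := Nat.le_of_dvd hq h0
    omega
  set y : ZMod P := (q : ZMod P)⁻¹ * (x - r') with hy
  have hyx : (q : ZMod P) * y + r' = x := by
    rw [hy, mul_inv_cancel_left₀ hq0]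
    ring
  have hylt : y.val < P := ZMod.val_lt y
  have hxlt : x.val < P := ZMod.val_lt x
  have hfr : Int.fract ((y.val : ℝ) / P) = (y.val : ℝ) / P := by
    rw [Int.fract_eq_self]
    constructor
    · positivity
    · rw [div_lt_one hPr]
      exact_mod_cast hylt
  rw [hfr]
  have e1 : (y.val : ℝ) / P = ((q : ℝ) * y.val) / (q * P) := by
    field_simp
  have hQ : (0 : ℝ) < q * P := by positivity
  rw [e1, div_le_div_iff_of_pos_right hQ, div_lt_div_iff_of_pos_right hQ]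
  -- the congruence
  have hmod : (q * y.val + r') % P = x.val := by
    rw [← ZMod.val_natCast]
    congr 1
    push_cast
    rw [ZMod.natCast_zmod_val, hyx]
  constructor
  · rintro ⟨h1, h2⟩
    have h3 : (q : ℤ) ∣ ((x.val : ℕ) : ℤ) - r' := by
      have : ((x.val : ℕ) : ℤ) - r' = (((x.val : ℕ) : ℤ) - r) + (r - r') := by ring
      rw [this]
      exact dvd_add h1 hrr
    have h4 : r' ≤ x.val := by omega
    obtain ⟨t, ht⟩ := h3
    have ht0 : 0 ≤ t := by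
      have : (0 : ℤ) ≤ q * t := by rw [← ht]; omega
      exact nonneg_of_mul_nonneg_right this hq'
    obtain ⟨t', rfl⟩ := Int.eq_ofNat_of_zero_le ht0
    have h5 : x.val = q * t' + r' := by
      have : ((x.val : ℕ) : ℤ) = q * t' + r' := by linarith
      exact_mod_cast this
    have h6 : t' < P := by
      have : t' ≤ q * t' := Nat.le_mul_of_pos_left _ hq
      omega
    have h7 : y = (t' : ZMod P) := by
      rw [hy]
      have h8 : x = (q : ZMod P) * t' + r' := by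
        have := ZMod.natCast_zmod_val x
        rw [← this, h5]
        push_cast
        ring
      rw [h8, add_sub_cancel_right, inv_mul_cancel_left₀ hq0]
    have h8 : y.val = t' := by
      rw [h7, ZMod.val_natCast, Nat.mod_eq_of_lt h6]
    rw [h8]
    have h9 : (x.val : ℝ) = q * t' + r' := by exact_mod_cast h5
    have h10 : (x.val : ℝ) < P := by exact_mod_cast hxlt
    have h11 : (P : ℝ) ≤ 2 * x.val := by exact_mod_cast h2
    constructor <;> linarith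
  · rintro ⟨h1, h2⟩
    have h3 : q * y.val + r' < P := by
      have : ((q * y.val + r' : ℕ) : ℝ) < P := by push_cast; linarith
      exact_mod_cast this
    have h4 : P ≤ 2 * (q * y.val + r') := by
      have : (P : ℝ) ≤ ((2 * (q * y.val + r') : ℕ) : ℝ) := by push_cast; linarith
      exact_mod_cast this
    rw [Nat.mod_eq_of_lt h3] at hmod
    rw [← hmod]
    refine ⟨?_, h4⟩
    have : (((q * y.val + r' : ℕ) : ℤ)) - r = q * y.val - (r - r') := by push_cast; ring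
    rw [this]
    exact dvd_sub (Dvd.intro _ rfl) hrr

/-- the least residues in the upper half, in the residue classes modulo `q` -/
lemma count2 (P q K : ℕ) [Fact P.Prime] (hq : 0 < q) (hqP : 2 * q ≤ P) (hK : 1 ≤ K) (hKP : K ^ 3 ≤ P)
    {ι : Type} (s : Finset ι) (F : ι → ZMod P) (E : ℝ) (hE0 : 0 ≤ E)
    (hE : ∀ k : ZMod P, k ≠ 0 → ‖∑ i ∈ s, ZMod.stdAddChar (k * F i)‖ ≤ E) (r : ℤ) :
    |((s.filter (fun i => (q : ℤ) ∣ (((F i).val : ℕ) : ℤ) - r ∧ P ≤ 2 * (F i).val)).card : ℝ) -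
      (s.card : ℝ) / (2 * q)| ≤ 14 * (s.card : ℝ) / K + 2 * ((K : ℝ) ^ 3 * E) := by
  classical
  have hP : P.Prime := Fact.out
  obtain ⟨r', hr', h⟩ := class_iff2 P q hq hqP r
  have hqr : (0 : ℝ) < q := by exact_mod_cast hq
  have hPr : (0 : ℝ) < P := by exact_mod_cast hP.pos
  have hr1 : (r' : ℝ) < q := by exact_mod_cast hr'
  have hr0 : (0 : ℝ) ≤ r' := Nat.cast_nonneg _
  have hq2 : (2 : ℝ) * q ≤ P := by exact_mod_cast hqP
  have hq0 : (q : ZMod P) ≠ 0 := by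
    intro h0
    rw [ZMod.natCast_eq_zero_iff] at h0
    have := Nat.le_of_dvd hq h0
    omega
  have h1 := disc s (fun i => (((q : ZMod P)⁻¹ * (F i - r')).val : ℝ) / P) K hK E hE0 ?_
    (((P : ℝ) / 2 - r') / (q * P)) (((P : ℝ) - r') / (q * P))
    (by apply div_nonneg <;> nlinarith) (by gcongr; linarith) (by
      rw [div_le_one (by positivity)]
      have : (1 : ℝ) ≤ q := by exact_mod_cast hq
      nlinarith)
  · have h2 : s.filter (fun i => (q : ℤ) ∣ (((F i).val : ℕ) : ℤ) - r ∧ P ≤ 2 * (F i).val) =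
        s.filter (fun i => ((((P : ℝ) / 2 - r') / (q * P) ≤
          Int.fract ((((q : ZMod P)⁻¹ * (F i - r')).val : ℝ) / P)) ∧
          Int.fract ((((q : ZMod P)⁻¹ * (F i - r')).val : ℝ) / P) < ((P : ℝ) - r') / (q * P))) :=
      filter_congr fun i _ => h (F i)
    rw [h2]
    have h4 : ((P : ℝ) - r') / (q * P) - ((P : ℝ) / 2 - r') / (q * P) = 1 / (2 * q) := by
      field_simp
      ring
    rw [h4, mul_one_div] at h1
    exact h1
  · intro j hj1 hj2
    have hj : (j : ZMod P) ≠ 0 := by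
      intro h0
      rw [ZMod.natCast_eq_zero_iff] at h0
      have := Nat.le_of_dvd hj1 h0
      omega
    have h3 : ∀ i ∈ s, e ((j : ℝ) * ((((q : ZMod P)⁻¹ * (F i - r')).val : ℝ) / P)) =
        ZMod.stdAddChar (N := P) (-((j : ZMod P) * (q : ZMod P)⁻¹ * ((r' : ℕ) : ZMod P))) *
          ZMod.stdAddChar (N := P) (((j : ZMod P) * (q : ZMod P)⁻¹) * F i) := by
      intro i _
      rw [← AddChar.map_add_eq_mul]
      have h5 : (j : ℝ) * ((((q : ZMod P)⁻¹ * (F i - r')).val : ℝ) / P) =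
          (((j * ((q : ZMod P)⁻¹ * (F i - r')).val : ℕ)) : ℝ) / P := by
        push_cast
        ring
      rw [h5, e_std]
      congr 1
      push_cast
      rw [ZMod.natCast_zmod_val]
      ring
    rw [sum_congr rfl h3, ← mul_sum, norm_mul]
    have h6 : ‖ZMod.stdAddChar (N := P) (-((j : ZMod P) * (q : ZMod P)⁻¹ * ((r' : ℕ) : ZMod P)))‖ = 1 :=
      AddChar.norm_apply _ _
    rw [h6, one_mul]
    exact hE _ (mul_ne_zero hj (inv_ne_zero hq0))

/-- the criterion -/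
theorem criterion (δ : ℝ) (h0 : 0 < δ) (h1 : δ ≤ 1) : ∃ κ : ℝ, 0 < κ ∧ ∃ P₀ : ℕ, ∀ P : ℕ, P₀ ≤ P →
    ∀ [Fact P.Prime], ∀ (ι : Type) (s : Finset ι) (F : ι → ZMod P), s.Nonempty →
    (∀ k : ZMod P, k ≠ 0 → ‖∑ i ∈ s, ZMod.stdAddChar (k * F i)‖ ≤ s.card * (P : ℝ) ^ (-δ)) →
    ∃ i ∈ s, P ≤ 2 * (F i).val ∧
      ∀ q : ℕ, q.Prime → κ * ff P < |(q : ℝ) - ((F i).val : ℕ)| := by
  classical
  set η : ℝ := δ / 4 with hη
  have hη0 : 0 < η := by positivity
  have hη1 : η ≤ 1 := by rw [hη]; linarith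
  obtain ⟨κ, hκ, X₀, hc⟩ := crit
  have hT := tendsto_rpow_atTop hη0
  have hev : ∀ᶠ M : ℝ in atTop, (η / 32 * ff M ≤ ff (M ^ η)) ∧ max X₀ 2 ≤ M ^ η ∧ 1 ≤ M ∧
      (Real.log (M ^ η)) ^ 2 ≤ (M ^ η) / 2 ∧ 8 * M ^ (3 * η) ≤ M ^ (1 : ℝ) ∧
      448 * M ^ (3 / 5 * η) ≤ M ^ η ∧ 512 * M ^ (18 / 5 * η) ≤ M ^ δ := by
    filter_upwards [ff_compare η hη0 hη1, hT.eventually_ge_atTop (max X₀ 2),
      eventually_ge_atTop (1 : ℝ), hT.eventually Pool.Agent.H256R2.SC.ev_log_sq,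
      ev_pow (3 * η) 1 8 (by rw [hη]; linarith), ev_pow (3 / 5 * η) η 448 (by linarith),
      ev_pow (18 / 5 * η) δ 512 (by rw [hη]; linarith)] with M a1 a2 a3 a4 a5 a6 a7
    refine ⟨(a1.2 (M ^ η) le_rfl ?_).1, a2, a3, a4, a5, a6, a7⟩
    calc M ^ η ≤ M ^ (2 : ℝ) := Real.rpow_le_rpow_of_exponent_le a3 (by linarith)
      _ = M ^ 2 := by norm_num
  obtain ⟨P₁, hP₁⟩ := eventually_atTop.1 (tendsto_natCast_atTop_atTop.eventually hev)
  refine ⟨κ * (η / 32), by positivity, P₁, fun P hP hPf ι s F hsne hF => ?_⟩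
  have hPp : P.Prime := hPf.out
  obtain ⟨b1, b2, b3, b4, b5, b6, b7⟩ := hP₁ P hP
  have hM0 : (0 : ℝ) < P := by linarith
  set X : ℝ := (P : ℝ) ^ η with hX
  have hX2 : 2 ≤ X := (le_max_right _ _).trans b2
  have hX0 : 0 < X := by linarith
  have hX1 : 1 ≤ X := by linarith
  have hpow : ∀ t : ℝ, (P : ℝ) ^ (t * η) = X ^ t := by
    intro t
    rw [hX, ← Real.rpow_mul hM0.le, mul_comm]
  obtain ⟨hfl, hcr⟩ := hc X ((le_max_left _ _).trans b2)
  rw [Real.rpow_one, hpow] at b5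
  rw [hpow] at b6 b7
  have hX3 : X ^ (3 : ℝ) = X ^ 3 := by
    rw [← Real.rpow_natCast]; norm_num
  rw [hX3] at b5
  have hXM : X ≤ P / 32 := by
    have : 4 * X ≤ X ^ 3 := by nlinarith [mul_le_mul hX2 hX2 (by norm_num) hX0.le]
    linarith
  set N : ℝ := (s.card : ℝ) with hN
  have hN0 : 0 < N := by rw [hN]; exact_mod_cast hsne.card_pos
  set K : ℕ := ⌈X⌉₊ with hK
  have hKX : X ≤ K := Nat.le_ceil X
  have hK2 : (K : ℝ) ≤ 2 * X := by
    have := Nat.ceil_lt_add_one hX0.le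
    rw [← hK] at this
    linarith
  have hK1 : 1 ≤ K := by
    have : (1 : ℝ) ≤ K := by linarith
    exact_mod_cast this
  have hK3 : (K : ℝ) ^ 3 ≤ 8 * X ^ 3 := by
    calc (K : ℝ) ^ 3 ≤ (2 * X) ^ 3 := pow_le_pow_left₀ (Nat.cast_nonneg _) hK2 3
      _ = 8 * X ^ 3 := by ring
  have hKP : K ^ 3 ≤ P := by
    have : (K : ℝ) ^ 3 ≤ P := hK3.trans b5
    exact_mod_cast this
  have hXr : 0 < X ^ (-(3 / 5) : ℝ) := Real.rpow_pos_of_pos hX0 _
  have hEn : 0 ≤ N * (P : ℝ) ^ (-δ) := by positivity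
  -- the error term
  have hD : 14 * N / K + 2 * ((K : ℝ) ^ 3 * (N * (P : ℝ) ^ (-δ))) ≤ N * X ^ (-(3 / 5) : ℝ) / 16 := by
    have e1 : 14 * N / K ≤ N * X ^ (-(3 / 5) : ℝ) / 32 := by
      have e2 : X ^ (-(3 / 5) : ℝ) = (X ^ (3 / 5 : ℝ))⁻¹ := Real.rpow_neg hX0.le _
      have e3 : 0 < X ^ (3 / 5 : ℝ) := Real.rpow_pos_of_pos hX0 _
      have hK0 : (0 : ℝ) < K := by linarith
      rw [e2, ← div_eq_mul_inv, div_div, div_le_div_iff₀ hK0 (by positivity)]
      have : 448 * X ^ (3 / 5 : ℝ) ≤ K := b6.trans hKX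
      nlinarith
    have e6 : 2 * ((K : ℝ) ^ 3 * (N * (P : ℝ) ^ (-δ))) ≤ N * X ^ (-(3 / 5) : ℝ) / 32 := by
      calc _ ≤ 2 * ((8 * X ^ 3) * (N * (P : ℝ) ^ (-δ))) := by gcongr
        _ = 16 * N * ((P : ℝ) ^ (-δ) * X ^ (3 : ℝ)) := by
            rw [hX3]; ring
        _ ≤ N * X ^ (-(3 / 5) : ℝ) / 32 := by
            have f5 : X ^ (3 : ℝ) = X ^ (18 / 5 : ℝ) * X ^ (-(3 / 5) : ℝ) := by
              rw [← Real.rpow_add hX0]; norm_num
            have f6 : (P : ℝ) ^ (-δ) * (P : ℝ) ^ δ = 1 := by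
              rw [← Real.rpow_add hM0]; simp
            have f7 : 0 < (P : ℝ) ^ (-δ) := Real.rpow_pos_of_pos hM0 _
            have f8 : (P : ℝ) ^ (-δ) * (512 * X ^ (18 / 5 : ℝ)) ≤ 1 := by
              calc _ ≤ (P : ℝ) ^ (-δ) * (P : ℝ) ^ δ := mul_le_mul_of_nonneg_left b7 f7.le
                _ = 1 := f6
            rw [f5]
            have : 16 * N * ((P : ℝ) ^ (-δ) * (X ^ (18 / 5 : ℝ) * X ^ (-(3 / 5) : ℝ))) =
                (N * X ^ (-(3 / 5) : ℝ) / 32) * ((P : ℝ) ^ (-δ) * (512 * X ^ (18 / 5 : ℝ))) := by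
              ring
            rw [this]
            have hpos : 0 ≤ N * X ^ (-(3 / 5) : ℝ) / 32 := by positivity
            calc _ ≤ (N * X ^ (-(3 / 5) : ℝ) / 32) * 1 := mul_le_mul_of_nonneg_left f8 hpos
              _ = _ := mul_one _
    linarith
  have hX25 : 1 ≤ X ^ (2 / 5 : ℝ) := Real.one_le_rpow hX1 (by norm_num)
  have hqlt : ∀ q : ℕ, (q : ℝ) ≤ X ^ (2 / 5 : ℝ) → 2 * q ≤ P := by
    intro q hq
    have : ((2 * q : ℕ) : ℝ) ≤ P := by
      push_cast
      have h2 : (q : ℝ) ≤ X := by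
        calc (q : ℝ) ≤ X ^ (2 / 5 : ℝ) := hq
          _ ≤ X ^ (1 : ℝ) := Real.rpow_le_rpow_of_exponent_le hX1 (by norm_num)
          _ = X := Real.rpow_one X
      linarith
    exact_mod_cast this
  set s' : Finset ι := s.filter (fun i => P ≤ 2 * (F i).val) with hs'
  have hcount : ∀ q : ℕ, 1 ≤ q → (q : ℝ) ≤ X ^ (2 / 5 : ℝ) → ∀ r : ℤ,
      |((s'.filter (fun i => (q : ℤ) ∣ (((F i).val : ℕ) : ℤ) - r)).card : ℝ) - N / (2 * q)| ≤
        N * X ^ (-(3 / 5) : ℝ) / 16 := by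
    intro q hq hqX r
    have h2 := count2 P q K hq (hqlt q hqX) hK1 hKP s F (N * (P : ℝ) ^ (-δ)) hEn hF r
    have h3 : s'.filter (fun i => (q : ℤ) ∣ (((F i).val : ℕ) : ℤ) - r) =
        s.filter (fun i => (q : ℤ) ∣ (((F i).val : ℕ) : ℤ) - r ∧ P ≤ 2 * (F i).val) := by
      rw [hs', filter_filter]
      refine filter_congr fun p _ => ?_
      tauto
    rw [h3]
    exact h2.trans hD
  have hone : |(s'.card : ℝ) - N / 2| ≤ N * X ^ (-(3 / 5) : ℝ) / 16 := by
    have h2 := hcount 1 le_rfl (by rw [Nat.cast_one]; exact hX25) 0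
    have h3 : s'.filter (fun i => ((1 : ℕ) : ℤ) ∣ (((F i).val : ℕ) : ℤ) - 0) = s' := by
      apply filter_true_of_mem
      intro p _
      rw [Nat.cast_one]
      exact one_dvd _
    rw [h3, Nat.cast_one, mul_one] at h2
    exact h2
  have hXle : X ^ (-(3 / 5) : ℝ) ≤ 1 := by
    apply Real.rpow_le_one_of_one_le_of_nonpos hX1 (by norm_num)
  have hsN : N / 4 ≤ s'.card := by
    have := (abs_le.1 hone).1
    have h5 : N * X ^ (-(3 / 5) : ℝ) ≤ N := mul_le_of_le_one_right hN0.le hXle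
    linarith
  have hsne' : s'.Nonempty := by
    rw [← card_pos]
    have : (0 : ℝ) < s'.card := by linarith
    exact_mod_cast this
  obtain ⟨i, hi, hi2⟩ := hcr ι s' (fun i => (((F i).val : ℕ) : ℤ)) hsne' (by
    intro q hq hqX r
    have h2 := hcount q hq hqX r
    have hq1 : (1 : ℝ) ≤ q := by exact_mod_cast hq
    have hq0 : (0 : ℝ) < q := by linarith
    have h3 : |(s'.card : ℝ) / q - N / (2 * q)| ≤ N * X ^ (-(3 / 5) : ℝ) / 16 := by
      have : (s'.card : ℝ) / q - N / (2 * q) = ((s'.card : ℝ) - N / 2) / q := by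
        field_simp
      rw [this, abs_div, abs_of_pos hq0]
      exact (div_le_self (abs_nonneg _) hq1).trans hone
    have h4 : |((s'.filter (fun i => (q : ℤ) ∣ (((F i).val : ℕ) : ℤ) - r)).card : ℝ) - s'.card / q| ≤
        N * X ^ (-(3 / 5) : ℝ) / 16 + N * X ^ (-(3 / 5) : ℝ) / 16 := by
      rw [abs_le] at h2 h3 ⊢
      constructor <;> linarith [h2.1, h2.2, h3.1, h3.2]
    refine h4.trans ?_
    have h5 : N / 4 * X ^ (-(3 / 5) : ℝ) ≤ s'.card * X ^ (-(3 / 5) : ℝ) :=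
      mul_le_mul_of_nonneg_right hsN hXr.le
    have h6 : 0 ≤ N * X ^ (-(3 / 5) : ℝ) := by positivity
    linarith)
  rw [hs', mem_filter] at hi
  refine ⟨i, hi.1, hi.2, fun q hq => ?_⟩
  by_contra hcon
  push Not at hcon
  have h6 : κ * (η / 32) * ff P ≤ κ * Pool.Agent.H256R2.SC.ff X := by
    calc κ * (η / 32) * ff P = κ * (η / 32 * ff P) := by ring
      _ ≤ _ := mul_le_mul_of_nonneg_left b1 hκ.le
  obtain ⟨p, hp, hpX', hpd⟩ := hi2 q (by
    push_cast
    linarith)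
  have h7 : p = q := (Nat.prime_dvd_prime_iff_eq hp hq).mp (by exact_mod_cast hpd)
  rw [h7] at hpX'
  have h8 : (P : ℝ) ≤ 2 * ((F i).val : ℕ) := by exact_mod_cast hi.2
  have h10 := (abs_le.mp hcon).1
  have h11 : X ^ (1 / 10 : ℝ) ≤ X := by
    calc X ^ (1 / 10 : ℝ) ≤ X ^ (1 : ℝ) := Real.rpow_le_rpow_of_exponent_le hX1 (by norm_num)
      _ = X := Real.rpow_one X
  linarith

end Pool.Agent.H763_mp
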