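import Pool.Agent.H763_mp.Crt
import Pool.Agent.Y961.JR.Crit
import Pool.Agent.Y961.JR.Disc

set_option autoImplicit false

/-! The joint criterion: vectors of residues modulo a prime. -/

namespace Pool.Agent.H763_mp

open Finset Filter
open Pool.Agent.H469R2.NK (e norm_e e_add)
open Pool.Agent.TH915.PW (disc)
open Pool.Agent.Y961.JR (critJ discJ_low pow_sub_pow_le e_sum)
open Pool.Agent.W147.PS (ff ff_compare ev_pow)

lemma e_std_int (P : ℕ) [NeZero P] (n : ℤ) :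
    e ((n : ℝ) / P) = ZMod.stdAddChar (N := P) ((n : ℤ) : ZMod P) := by
  have h := ZMod.stdAddChar_coe (N := P) n
  rw [h]
  unfold Pool.Agent.H469R2.NK.e
  congr 1
  push_cast
  ring

/-- a short interval of the fractional part of `y / P` inside a residue class of the least residue -/
lemma class_low (P q : ℕ) [Fact P.Prime] (hq : 0 < q) (hqP : 2 * q ≤ P) (r : ℤ) :
    ∃ r' : ZMod P, ∀ x : ZMod P,
      Int.fract ((((q : ZMod P)⁻¹ * (x - r')).val : ℝ) / P) < 1 / q - 1 / P →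
        (q : ℤ) ∣ ((x.val : ℕ) : ℤ) - r := by
  have hP : P.Prime := Fact.out
  have hP0 : 0 < P := hP.pos
  have hq' : (0 : ℤ) < q := by exact_mod_cast hq
  have hPr : (0 : ℝ) < P := by exact_mod_cast hP0
  have hqr : (0 : ℝ) < q := by exact_mod_cast hq
  obtain ⟨r', hr'⟩ : ∃ r' : ℕ, (r' : ℤ) = r % q :=
    ⟨(r % q).toNat, Int.toNat_of_nonneg (Int.emod_nonneg _ hq'.ne')⟩
  have hr'q : r' < q := by
    have := Int.emod_lt_of_pos r hq'
    omega
  have hrr : (q : ℤ) ∣ r - r' := by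
    rw [hr']
    refine ⟨r / q, ?_⟩
    have := Int.emod_add_mul_ediv r q
    linarith
  refine ⟨((r' : ℕ) : ZMod P), fun x hx => ?_⟩
  have hq0 : (q : ZMod P) ≠ 0 := by
    intro h0
    rw [ZMod.natCast_eq_zero_iff] at h0
    have := Nat.le_of_dvd hq h0
    omega
  set y : ZMod P := (q : ZMod P)⁻¹ * (x - ((r' : ℕ) : ZMod P)) with hy
  have hyx : (q : ZMod P) * y + ((r' : ℕ) : ZMod P) = x := by
    rw [hy, mul_inv_cancel_left₀ hq0]
    ring
  have hylt : y.val < P := ZMod.val_lt y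
  have hfr : Int.fract ((y.val : ℝ) / P) = (y.val : ℝ) / P := by
    rw [Int.fract_eq_self]
    constructor
    · positivity
    · rw [div_lt_one hPr]
      exact_mod_cast hylt
  rw [hfr, div_lt_iff₀ hPr] at hx
  have hmod : (q * y.val + r') % P = x.val := by
    rw [← ZMod.val_natCast]
    congr 1
    push_cast
    rw [ZMod.natCast_zmod_val, hyx]
  have h3 : q * y.val + r' < P := by
    have h4 : (r' : ℝ) < q := by exact_mod_cast hr'q
    have h5 : (q : ℝ) * y.val < P - q := by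
      have h6 : (q : ℝ) * y.val < q * ((1 / q - 1 / P) * P) := mul_lt_mul_of_pos_left hx hqr
      have h7 : (q : ℝ) * ((1 / q - 1 / P) * P) = P - q := by
        field_simp
      linarith
    have : ((q * y.val + r' : ℕ) : ℝ) < P := by push_cast; linarith
    exact_mod_cast this
  rw [Nat.mod_eq_of_lt h3] at hmod
  rw [← hmod]
  have : (((q * y.val + r' : ℕ) : ℤ)) - r = q * y.val - (r - r') := by push_cast; ring
  rw [this]
  exact dvd_sub (Dvd.intro _ rfl) hrr

/-- from lower bounds in all classes to two-sided bounds -/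
lemma class_abs {ι : Type} {r : ℕ} (s : Finset ι) (v : ι → Fin r → ℤ) (q : ℕ) (hq : 1 ≤ q)
    (err : ℝ) (herr0 : 0 ≤ err)
    (hlow : ∀ ρ : Fin r → ℤ, (s.card : ℝ) / (q : ℝ) ^ r - err ≤
      ((s.filter (fun i => ∀ j, (q : ℤ) ∣ v i j - ρ j)).card : ℝ)) (ρ : Fin r → ℤ) :
    |((s.filter (fun i => ∀ j, (q : ℤ) ∣ v i j - ρ j)).card : ℝ) - s.card / (q : ℝ) ^ r| ≤
      (q : ℝ) ^ r * err := by
  classical
  have hq0 : (0 : ℝ) < q := by exact_mod_cast hq
  have hq1 : (1 : ℝ) ≤ q := by exact_mod_cast hq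
  have hqi : (0 : ℤ) < q := by exact_mod_cast hq
  set cnt : (Fin r → ℤ) → ℝ := fun τ =>
    ((s.filter (fun i => (fun j => v i j % (q : ℤ)) = τ)).card : ℝ) with hcnt
  set R : Finset (Fin r → ℤ) := Fintype.piFinset (fun _ => Finset.Ico 0 (q : ℤ)) with hR
  have hRcard : (R.card : ℝ) = (q : ℝ) ^ r := by
    rw [hR, Fintype.card_piFinset]
    simp
  have hfil : ∀ ρ : Fin r → ℤ, (s.filter (fun i => ∀ j, (q : ℤ) ∣ v i j - ρ j)) =
      s.filter (fun i => (fun j => v i j % (q : ℤ)) = (fun j => ρ j % (q : ℤ))) := by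
    intro ρ
    apply Finset.filter_congr
    intro i _
    rw [funext_iff]
    refine forall_congr' fun j => ?_
    constructor
    · intro h
      exact Int.emod_eq_emod_iff_emod_sub_eq_zero.mpr (Int.emod_eq_zero_of_dvd h)
    · intro h
      exact Int.dvd_of_emod_eq_zero (Int.emod_eq_emod_iff_emod_sub_eq_zero.mp h)
  have hlow' : ∀ τ ∈ R, s.card / (q : ℝ) ^ r - err ≤ cnt τ := by
    intro τ hτ
    rw [hR, Fintype.mem_piFinset] at hτ
    have h1 := hlow τ
    rw [hfil τ] at h1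
    have h2 : (fun j => τ j % (q : ℤ)) = τ := by
      funext j
      have h3 := hτ j
      rw [Finset.mem_Ico] at h3
      exact Int.emod_eq_of_lt h3.1 h3.2
    rw [h2] at h1
    exact h1
  have hsum : ∑ τ ∈ R, cnt τ = s.card := by
    have := Finset.card_eq_sum_card_fiberwise (s := s) (t := R)
      (f := fun i j => v i j % (q : ℤ)) (by
        intro i _
        rw [hR]
        simp only [Finset.mem_coe, Fintype.mem_piFinset, Finset.mem_Ico]
        intro j
        exact ⟨Int.emod_nonneg _ hqi.ne', Int.emod_lt_of_pos _ hqi⟩)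
    rw [this]
    push_cast
    rfl
  set τ₀ : Fin r → ℤ := fun j => ρ j % (q : ℤ) with hτ₀
  have hτR : τ₀ ∈ R := by
    rw [hR, Fintype.mem_piFinset]
    intro j
    rw [Finset.mem_Ico]
    exact ⟨Int.emod_nonneg _ hqi.ne', Int.emod_lt_of_pos _ hqi⟩
  rw [hfil ρ]
  change |cnt τ₀ - s.card / (q : ℝ) ^ r| ≤ (q : ℝ) ^ r * err
  have hqr1 : (1 : ℝ) ≤ (q : ℝ) ^ r := one_le_pow₀ hq1
  have h1 := hlow' τ₀ hτR
  have h2 : ∑ τ ∈ R.erase τ₀, (s.card / (q : ℝ) ^ r - err) ≤ ∑ τ ∈ R.erase τ₀, cnt τ :=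
    Finset.sum_le_sum fun τ hτ => hlow' τ (Finset.mem_of_mem_erase hτ)
  rw [Finset.sum_const, nsmul_eq_mul, Finset.card_erase_of_mem hτR,
    Nat.cast_sub (Finset.card_pos.mpr ⟨τ₀, hτR⟩), hRcard] at h2
  have h3 := Finset.add_sum_erase R cnt hτR
  rw [hsum] at h3
  push_cast at h2
  have e1 : ((q : ℝ) ^ r - 1) * (s.card / (q : ℝ) ^ r - err) =
      s.card - s.card / (q : ℝ) ^ r - (q : ℝ) ^ r * err + err := by
    field_simp
    ring
  rw [e1] at h2
  rw [abs_le]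
  constructor
  · nlinarith
  · linarith

/-- the joint lower bound -/
lemma joint_low (P q K r : ℕ) [Fact P.Prime] (hr : 1 ≤ r) (hq : 0 < q) (hqP : 2 * q ≤ P) (hK : 1 ≤ K)
    (hKP : K ^ 3 ≤ P) {ι : Type} (s : Finset ι) (F : ι → Fin r → ZMod P) (E : ℝ) (hE0 : 0 ≤ E)
    (hE : ∀ k : Fin r → ZMod P, k ≠ 0 →
      ‖∑ i ∈ s, ZMod.stdAddChar (N := P) (∑ j, k j * F i j)‖ ≤ E)
    (hw : 3 / (K : ℝ) ≤ 1 / q - 1 / P) (ρ : Fin r → ℤ) :
    (s.card : ℝ) / (q : ℝ) ^ r - (s.card * (r * (1 / P + 3 / K)) + 4 * s.card / K +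
      (K : ℝ) ^ (3 * r) * E) ≤
      ((s.filter (fun i => ∀ j, (q : ℤ) ∣ (((F i j).val : ℕ) : ℤ) - ρ j)).card : ℝ) := by
  classical
  have hP : P.Prime := Fact.out
  have hqr : (0 : ℝ) < q := by exact_mod_cast hq
  have hq1 : (1 : ℝ) ≤ q := by exact_mod_cast hq
  have hPr : (0 : ℝ) < P := by exact_mod_cast hP.pos
  have hK0 : (0 : ℝ) < K := by exact_mod_cast hK
  have hq0 : (q : ZMod P) ≠ 0 := by
    intro h0
    rw [ZMod.natCast_eq_zero_iff] at h0
    have := Nat.le_of_dvd hq h0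
    omega
  choose r' hr' using fun j => class_low P q hq hqP (ρ j)
  have h1 := discJ_low hr s (fun i j => (((q : ZMod P)⁻¹ * (F i j - r' j)).val : ℝ) / P) K hK E hE0
    (by
      intro h hh hlt
      have h2 : ∀ i ∈ s, e (∑ j, (h j : ℝ) * ((((q : ZMod P)⁻¹ * (F i j - r' j)).val : ℝ) / P)) =
          ZMod.stdAddChar (N := P) (-(∑ j, (h j : ZMod P) * (q : ZMod P)⁻¹ * r' j)) *
            ZMod.stdAddChar (N := P) (∑ j, ((h j : ZMod P) * (q : ZMod P)⁻¹) * F i j) := by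
        intro i _
        rw [← AddChar.map_add_eq_mul]
        have h3 : ∑ j, (h j : ℝ) * ((((q : ZMod P)⁻¹ * (F i j - r' j)).val : ℝ) / P) =
            ((∑ j, h j * ((((q : ZMod P)⁻¹ * (F i j - r' j)).val : ℕ) : ℤ) : ℤ) : ℝ) / P := by
          push_cast
          rw [Finset.sum_div]
          exact Finset.sum_congr rfl fun j _ => by ring
        rw [h3, e_std_int]
        congr 1
        push_cast
        rw [← Finset.sum_neg_distrib, ← Finset.sum_add_distrib]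
        refine Finset.sum_congr rfl fun j _ => ?_
        rw [ZMod.natCast_zmod_val]
        ring
      rw [sum_congr rfl h2, ← mul_sum, norm_mul]
      have h6 : ‖ZMod.stdAddChar (N := P) (-(∑ j, (h j : ZMod P) * (q : ZMod P)⁻¹ * r' j))‖ = 1 :=
        AddChar.norm_apply _ _
      rw [h6, one_mul]
      refine hE (fun j => (h j : ZMod P) * (q : ZMod P)⁻¹) ?_
      intro h0
      apply hh
      funext j
      have h7 : (h j : ZMod P) * (q : ZMod P)⁻¹ = 0 := congrFun h0 j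
      have h8 : ((h j : ℤ) : ZMod P) = 0 := by
        rcases mul_eq_zero.1 h7 with h9 | h9
        · exact h9
        · exact absurd h9 (inv_ne_zero hq0)
      rw [ZMod.intCast_zmod_eq_zero_iff_dvd] at h8
      have h9 : (P : ℕ) ∣ (h j).natAbs := Int.natCast_dvd.1 h8
      by_contra hne
      have h10 : 0 < (h j).natAbs := Int.natAbs_pos.2 hne
      have h11 := Nat.le_of_dvd h10 h9
      have := hlt j
      omega) (fun _ => 0) (fun _ => 1 / q - 1 / P) (fun _ => le_rfl) (fun _ => by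
      have h2 : 1 / (q : ℝ) ≤ 1 := by rw [div_le_one hqr]; exact hq1
      have h3 : 0 < 1 / (P : ℝ) := by positivity
      show (1 / (q : ℝ) - 1 / P) ≤ 1
      linarith) (1 / q - 1 / P) (fun _ => by ring) hw
  have h2 : (s.filter (fun i => ∀ j, (fun _ => (0 : ℝ)) j ≤
      Int.fract ((((q : ZMod P)⁻¹ * (F i j - r' j)).val : ℝ) / P) ∧
      Int.fract ((((q : ZMod P)⁻¹ * (F i j - r' j)).val : ℝ) / P) < (fun _ => 1 / (q : ℝ) - 1 / P) j)).card ≤
      (s.filter (fun i => ∀ j, (q : ℤ) ∣ (((F i j).val : ℕ) : ℤ) - ρ j)).card := by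
    apply card_le_card
    intro i hi
    rw [mem_filter] at hi ⊢
    exact ⟨hi.1, fun j => hr' j (F i j) (hi.2 j).2⟩
  have h3 : ((s.filter (fun i => ∀ j, (fun _ => (0 : ℝ)) j ≤
      Int.fract ((((q : ZMod P)⁻¹ * (F i j - r' j)).val : ℝ) / P) ∧
      Int.fract ((((q : ZMod P)⁻¹ * (F i j - r' j)).val : ℝ) / P) <
        (fun _ => 1 / (q : ℝ) - 1 / P) j)).card : ℝ) ≤
      ((s.filter (fun i => ∀ j, (q : ℤ) ∣ (((F i j).val : ℕ) : ℤ) - ρ j)).card : ℝ) := by
    exact_mod_cast h2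
  refine le_trans ?_ (h1.trans h3)
  have hPp : 0 < 1 / (P : ℝ) := by positivity
  have h3K : 0 < 3 / (K : ℝ) := by positivity
  have hq11 : 1 / (q : ℝ) ≤ 1 := by rw [div_le_one hqr]; exact hq1
  have h4 := pow_sub_pow_le (a := 1 / (q : ℝ)) (c := 1 / q - 1 / P - 3 / K) (by linarith)
    (by linarith) hq11 r
  have e1 : (1 / (q : ℝ)) ^ r = 1 / (q : ℝ) ^ r := by rw [div_pow, one_pow]
  rw [e1] at h4
  have h5 : (s.card : ℝ) * (1 / (q : ℝ) ^ r - (1 / q - 1 / P - 3 / K) ^ r) ≤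
      s.card * (r * (1 / (q : ℝ) - (1 / q - 1 / P - 3 / K))) :=
    mul_le_mul_of_nonneg_left h4 (Nat.cast_nonneg _)
  have e2 : (s.card : ℝ) / (q : ℝ) ^ r = s.card * (1 / (q : ℝ) ^ r) := by ring
  have e3 : (s.card : ℝ) * (r * (1 / (q : ℝ) - (1 / q - 1 / P - 3 / K))) =
      s.card * (r * (1 / P + 3 / K)) := by ring
  rw [e2]
  rw [e3] at h5
  linarith

/-- the joint criterion -/
theorem jcriterion (r : ℕ) (hr : 1 ≤ r) (δ : ℝ) (h0 : 0 < δ) (h1 : δ ≤ 1) : ∃ κ : ℝ, 0 < κ ∧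
    ∃ P₀ : ℕ, ∀ P : ℕ, P₀ ≤ P → ∀ [Fact P.Prime], ∀ (ι : Type) (s : Finset ι)
    (F : ι → Fin r → ZMod P), s.Nonempty →
    (∀ k : Fin r → ZMod P, k ≠ 0 →
      ‖∑ i ∈ s, ZMod.stdAddChar (N := P) (∑ j, k j * F i j)‖ ≤ s.card * (P : ℝ) ^ (-δ)) →
    ∃ i ∈ s, ∀ j, ∀ q : ℕ, q.Prime → κ * ff P < |(q : ℝ) - ((F i j).val : ℕ)| := by
  classical
  have hr1 : (1 : ℝ) ≤ r := by exact_mod_cast hr
  have hr2 : (1 : ℝ) ≤ (r : ℝ) ^ 2 := one_le_pow₀ hr1
  set η : ℝ := δ / (20 * (r : ℝ) ^ 2) with hη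
  have hη0 : 0 < η := by positivity
  have hη1 : η ≤ 1 := by
    rw [hη, div_le_one (by positivity)]
    linarith
  obtain ⟨κ, hκ, X₀, hc⟩ := critJ r hr
  have hT := tendsto_rpow_atTop hη0
  have hev : ∀ᶠ M : ℝ in atTop, (η / 32 * ff M ≤ ff (M ^ η)) ∧ max X₀ (76 * r + 100) ≤ M ^ η ∧
      1 ≤ M ∧ (Real.log (M ^ η)) ^ 2 ≤ (M ^ η) / 2 := by
    filter_upwards [ff_compare η hη0 hη1, hT.eventually_ge_atTop (max X₀ (76 * r + 100)),
      eventually_ge_atTop (1 : ℝ), hT.eventually Pool.Agent.H256R2.SC.ev_log_sq] with M a1 a2 a3 a4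
    refine ⟨(a1.2 (M ^ η) le_rfl ?_).1, a2, a3, a4⟩
    calc M ^ η ≤ M ^ (2 : ℝ) := Real.rpow_le_rpow_of_exponent_le a3 (by linarith)
      _ = M ^ 2 := by norm_num
  obtain ⟨P₁, hP₁⟩ := eventually_atTop.1 (tendsto_natCast_atTop_atTop.eventually hev)
  refine ⟨κ * (η / 32), by positivity, P₁, fun P hP hPf ι s F hsne hF => ?_⟩
  have hPp : P.Prime := hPf.out
  obtain ⟨c1, c2, c3, c4⟩ := hP₁ P hP
  have hP0 : (0 : ℝ) < P := by linarith
  set X : ℝ := (P : ℝ) ^ η with hX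
  obtain ⟨hfl, hcr⟩ := hc X ((le_max_left _ _).trans c2)
  have hXr : 76 * (r : ℝ) + 100 ≤ X := (le_max_right _ _).trans c2
  have hX100 : 100 ≤ X := by linarith
  have hX0 : 0 < X := by linarith
  have hX1 : 1 ≤ X := by linarith
  have hPd : (P : ℝ) ^ δ = X ^ (20 * r ^ 2) := by
    rw [hX, ← Real.rpow_natCast, ← Real.rpow_mul hP0.le]
    congr 1
    rw [hη]
    push_cast
    field_simp
  have hPdn : (P : ℝ) ^ (-δ) = (X ^ (20 * r ^ 2))⁻¹ := by rw [Real.rpow_neg hP0.le, hPd]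
  have hPX : X ^ (20 * r ^ 2) ≤ P := by
    rw [← hPd]
    calc (P : ℝ) ^ δ ≤ (P : ℝ) ^ (1 : ℝ) := Real.rpow_le_rpow_of_exponent_le c3 h1
      _ = P := Real.rpow_one _
  have hmono : ∀ a b : ℕ, a ≤ b → X ^ a ≤ X ^ b := fun a b hab => pow_le_pow_right₀ hX1 hab
  have hrr : r ≤ r ^ 2 := by nlinarith
  set N : ℝ := (s.card : ℝ) with hN
  have hN0 : 0 < N := by rw [hN]; exact_mod_cast hsne.card_pos
  set Y : ℕ := ⌈X⌉₊ with hY
  have hXY : X ≤ Y := Nat.le_ceil X
  have hY2 : (Y : ℝ) ≤ 2 * X := by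
    have := Nat.ceil_lt_add_one hX0.le
    rw [← hY] at this
    linarith
  have hY1 : 1 ≤ Y := by
    have : (1 : ℝ) ≤ Y := by linarith
    exact_mod_cast this
  set K : ℕ := Y ^ (4 * r) with hK
  have hK1 : 1 ≤ K := Nat.one_le_pow _ _ hY1
  have hK1r : (1 : ℝ) ≤ K := by exact_mod_cast hK1
  have hK0 : (0 : ℝ) < K := by linarith
  have hKX : X ^ (4 * r) ≤ K := by
    rw [hK]
    push_cast
    exact pow_le_pow_left₀ hX0.le hXY _
  have hK3r : (K : ℝ) ^ (3 * r) ≤ X ^ (16 * r ^ 2) := by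
    have e1 : (K : ℝ) ^ (3 * r) = (Y : ℝ) ^ (12 * r ^ 2) := by
      rw [hK]
      push_cast
      rw [← pow_mul]
      congr 1
      ring
    have e2 : (8 : ℝ) ^ (4 * r ^ 2) ≤ X ^ (4 * r ^ 2) := pow_le_pow_left₀ (by norm_num) (by linarith) _
    calc (K : ℝ) ^ (3 * r) = (Y : ℝ) ^ (12 * r ^ 2) := e1
      _ ≤ (2 * X) ^ (12 * r ^ 2) := pow_le_pow_left₀ (Nat.cast_nonneg _) hY2 _
      _ = (2 ^ 3) ^ (4 * r ^ 2) * X ^ (12 * r ^ 2) := by
          rw [mul_pow, ← pow_mul]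
          congr 2
          ring
      _ = 8 ^ (4 * r ^ 2) * X ^ (12 * r ^ 2) := by norm_num
      _ ≤ X ^ (4 * r ^ 2) * X ^ (12 * r ^ 2) := mul_le_mul_of_nonneg_right e2 (by positivity)
      _ = X ^ (16 * r ^ 2) := by rw [← pow_add]; congr 1; ring
  have hK33 : (K : ℝ) ^ 3 ≤ (K : ℝ) ^ (3 * r) := pow_le_pow_right₀ hK1r (by omega)
  have hK3P : K ^ 3 ≤ P := by
    have : (K : ℝ) ^ 3 ≤ P := by
      calc (K : ℝ) ^ 3 ≤ X ^ (16 * r ^ 2) := hK33.trans hK3r
        _ ≤ X ^ (20 * r ^ 2) := hmono _ _ (by omega)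
        _ ≤ P := hPX
    exact_mod_cast this
  set β : ℝ := (X ^ (4 * r))⁻¹ with hβ
  have hβ0 : 0 < β := by positivity
  have b1 : 1 / (K : ℝ) ≤ β := by
    rw [hβ, ← one_div]
    exact one_div_le_one_div_of_le (by positivity) hKX
  have b2 : 2 * X / P ≤ β := by
    rw [hβ, div_le_iff₀ hP0, inv_mul_eq_div, le_div_iff₀ (by positivity)]
    calc 2 * X * X ^ (4 * r) ≤ X ^ 2 * X ^ (4 * r) := by
          apply mul_le_mul_of_nonneg_right _ (by positivity)
          nlinarith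
      _ = X ^ (2 + 4 * r) := by rw [pow_add]
      _ ≤ X ^ (20 * r ^ 2) := hmono _ _ (by nlinarith)
      _ ≤ P := hPX
  have b3 : 1 / (P : ℝ) ≤ β := by
    refine le_trans ?_ b2
    gcongr
    linarith
  set E : ℝ := N * (P : ℝ) ^ (-δ) with hE
  have hE0 : 0 ≤ E := by positivity
  have b4 : (K : ℝ) ^ (3 * r) * E ≤ N * β := by
    have e1 : (K : ℝ) ^ (3 * r) * (X ^ (20 * r ^ 2))⁻¹ ≤ β := by
      rw [hβ, ← div_eq_mul_inv, div_le_iff₀ (by positivity), inv_mul_eq_div,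
        le_div_iff₀ (by positivity)]
      calc (K : ℝ) ^ (3 * r) * X ^ (4 * r) ≤ X ^ (16 * r ^ 2) * X ^ (4 * r ^ 2) := by
            apply mul_le_mul hK3r (hmono _ _ (by omega)) (by positivity) (by positivity)
        _ = X ^ (20 * r ^ 2) := by rw [← pow_add]; congr 1; ring
    rw [hE, hPdn]
    calc (K : ℝ) ^ (3 * r) * (N * (X ^ (20 * r ^ 2))⁻¹) =
          N * ((K : ℝ) ^ (3 * r) * (X ^ (20 * r ^ 2))⁻¹) := by ring
      _ ≤ N * β := mul_le_mul_of_nonneg_left e1 hN0.le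
  have b5 : β ≤ (X ^ (3 * r))⁻¹ := inv_anti₀ (by positivity) (hmono _ _ (by omega))
  have b6 : β ≤ 1 / (4 * X) := by
    rw [hβ, ← one_div]
    apply one_div_le_one_div_of_le (by positivity)
    calc 4 * X ≤ X ^ 2 := by nlinarith
      _ ≤ X ^ (4 * r) := hmono _ _ (by omega)
  set γ : ℝ := (X ^ (3 * r))⁻¹ with hγ
  have hγ0 : 0 < γ := by positivity
  -- the classes
  have hcls : ∀ q : ℕ, 1 ≤ q → (q : ℝ) ≤ X → ∀ ρ : Fin r → ℤ,
      |((s.filter (fun i => ∀ j, (q : ℤ) ∣ (((F i j).val : ℕ) : ℤ) - ρ j)).card : ℝ) -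
        N / (q : ℝ) ^ r| ≤ N * (4 * r + 5) * γ := by
    intro q hq hqX ρ
    have hq0 : (0 : ℝ) < q := by exact_mod_cast hq
    have hqP : 2 * q ≤ P := by
      have : ((2 * q : ℕ) : ℝ) ≤ P := by
        push_cast
        calc 2 * (q : ℝ) ≤ 2 * X := by linarith
          _ ≤ X ^ 2 := by nlinarith
          _ ≤ X ^ (20 * r ^ 2) := hmono _ _ (by nlinarith)
          _ ≤ P := hPX
      exact_mod_cast this
    have hw : 3 / (K : ℝ) ≤ 1 / q - 1 / P := by
      have e1 : 3 / (K : ℝ) = 3 * (1 / K) := by ring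
      have e2 : 1 / X ≤ 1 / (q : ℝ) := one_div_le_one_div_of_le hq0 hqX
      have e3 : 4 * β ≤ 1 / X := by
        calc 4 * β ≤ 4 * (1 / (4 * X)) := by linarith
          _ = 1 / X := by field_simp
      rw [e1]
      linarith
    have h2 := class_abs s (fun i j => (((F i j).val : ℕ) : ℤ)) q hq
      (N * (r * (1 / P + 3 / K)) + 4 * N / K + (K : ℝ) ^ (3 * r) * E) (by positivity)
      (fun ρ => joint_low P q K r hr hq hqP hK1 hK3P s F E hE0 hF hw ρ) ρ
    refine h2.trans ?_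
    have e1 : N * (r * (1 / P + 3 / K)) + 4 * N / K + (K : ℝ) ^ (3 * r) * E ≤
        N * (4 * r + 5) * β := by
      have f1 : (r : ℝ) * (1 / P + 3 / K) ≤ r * (4 * β) := by
        apply mul_le_mul_of_nonneg_left _ (by positivity)
        have : 3 / (K : ℝ) = 3 * (1 / K) := by ring
        rw [this]
        linarith
      have f2 : N * (r * (1 / P + 3 / K)) ≤ N * (r * (4 * β)) := mul_le_mul_of_nonneg_left f1 hN0.le
      have f3 : 4 * N / K ≤ 4 * N * β := by
        have : 4 * N / K = 4 * N * (1 / K) := by ring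
        rw [this]
        exact mul_le_mul_of_nonneg_left b1 (by positivity)
      calc _ ≤ N * (r * (4 * β)) + 4 * N * β + N * β := by linarith
        _ = N * (4 * r + 5) * β := by ring
    have e2 : (q : ℝ) ^ r * β ≤ γ := by
      have f1 : (q : ℝ) ^ r ≤ X ^ r := pow_le_pow_left₀ hq0.le hqX r
      have f2 : X ^ r * β = γ := by
        rw [hβ, hγ]
        have : X ^ (4 * r) = X ^ r * X ^ (3 * r) := by rw [← pow_add]; congr 1; ring
        rw [this]
        field_simp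
      calc (q : ℝ) ^ r * β ≤ X ^ r * β := mul_le_mul_of_nonneg_right f1 hβ0.le
        _ = γ := f2
    calc (q : ℝ) ^ r * (N * (r * (1 / P + 3 / K)) + 4 * N / K + (K : ℝ) ^ (3 * r) * E) ≤
          (q : ℝ) ^ r * (N * (4 * r + 5) * β) := mul_le_mul_of_nonneg_left e1 (by positivity)
      _ = N * (4 * r + 5) * ((q : ℝ) ^ r * β) := by ring
      _ ≤ N * (4 * r + 5) * γ := mul_le_mul_of_nonneg_left e2 (by positivity)
  -- the small values
  have hsmall : ∀ j : Fin r, ((s.filter (fun i => (((F i j).val : ℕ) : ℝ) < 2 * X)).card : ℝ) ≤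
      17 * N * β := by
    intro j
    have h2 := disc s (fun i => (((F i j).val : ℕ) : ℝ) / P) K hK1 E hE0 (by
      intro t ht1 ht2
      have h3 : ∀ i ∈ s, e ((t : ℝ) * ((((F i j).val : ℕ) : ℝ) / P)) =
          ZMod.stdAddChar (N := P) (∑ j', (Pi.single j (t : ZMod P) : Fin r → ZMod P) j' * F i j') := by
        intro i _
        have h5 : (t : ℝ) * ((((F i j).val : ℕ) : ℝ) / P) =
            ((t * (F i j).val : ℕ) : ℝ) / P := by
          push_cast
          ring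
        rw [h5, e_std]
        congr 1
        rw [Finset.sum_eq_single j]
        · rw [Pi.single_eq_same]
          push_cast
          rw [ZMod.natCast_zmod_val]
        · intro j' _ hj'
          rw [Pi.single_eq_of_ne hj', zero_mul]
        · intro hj
          exact absurd (mem_univ _) hj
      rw [sum_congr rfl h3]
      apply hF
      intro h4
      have h5 : (Pi.single j (t : ZMod P) : Fin r → ZMod P) j = 0 := congrFun h4 j
      rw [Pi.single_eq_same, ZMod.natCast_eq_zero_iff] at h5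
      have := Nat.le_of_dvd ht1 h5
      omega) 0 (2 * X / P) le_rfl (by positivity) (by
        rw [div_le_one hP0]
        calc 2 * X ≤ X ^ 2 := by nlinarith
          _ ≤ X ^ (20 * r ^ 2) := hmono _ _ (by nlinarith)
          _ ≤ P := hPX)
    have h3 : s.filter (fun i => (0 : ℝ) ≤ Int.fract ((((F i j).val : ℕ) : ℝ) / P) ∧
        Int.fract ((((F i j).val : ℕ) : ℝ) / P) < 2 * X / P) =
        s.filter (fun i => (((F i j).val : ℕ) : ℝ) < 2 * X) := by
      refine filter_congr fun i _ => ?_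
      have hlt : (((F i j).val : ℕ) : ℝ) < P := by exact_mod_cast ZMod.val_lt (F i j)
      have hfr : Int.fract ((((F i j).val : ℕ) : ℝ) / P) = (((F i j).val : ℕ) : ℝ) / P := by
        rw [Int.fract_eq_self]
        constructor
        · positivity
        · rw [div_lt_one hP0]
          exact hlt
      rw [hfr, div_lt_div_iff_of_pos_right hP0]
      exact ⟨fun h => h.2, fun h => ⟨by positivity, h⟩⟩
    rw [h3, sub_zero] at h2
    have h4 := (abs_le.1 h2).2
    have h5 : N * (2 * X / P) ≤ N * β := mul_le_mul_of_nonneg_left b2 hN0.le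
    have h6 : 14 * N / K ≤ 14 * N * β := by
      have : 14 * N / K = 14 * N * (1 / K) := by ring
      rw [this]
      exact mul_le_mul_of_nonneg_left b1 (by positivity)
    have h7 : (K : ℝ) ^ 3 * E ≤ N * β := (mul_le_mul_of_nonneg_right hK33 hE0).trans b4
    linarith
  set s'' : Finset ι := s.filter (fun i => ∀ j, 2 * X ≤ (((F i j).val : ℕ) : ℝ)) with hs''
  set bad : Finset ι := s.filter (fun i => ¬ ∀ j, 2 * X ≤ (((F i j).val : ℕ) : ℝ)) with hbad
  have hbadc : (bad.card : ℝ) ≤ 17 * r * N * β := by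
    have e1 : bad ⊆ univ.biUnion
        (fun j : Fin r => s.filter (fun i => (((F i j).val : ℕ) : ℝ) < 2 * X)) := by
      intro i hi
      rw [hbad, mem_filter] at hi
      obtain ⟨hi1, hi2⟩ := hi
      push Not at hi2
      obtain ⟨j, hj⟩ := hi2
      rw [mem_biUnion]
      exact ⟨j, mem_univ _, by rw [mem_filter]; exact ⟨hi1, hj⟩⟩
    have e2 : (bad.card : ℝ) ≤
        ∑ j : Fin r, ((s.filter (fun i => (((F i j).val : ℕ) : ℝ) < 2 * X)).card : ℝ) := by
      have := (card_le_card e1).trans card_biUnion_le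
      exact_mod_cast this
    refine e2.trans ((sum_le_sum fun j _ => hsmall j).trans (le_of_eq ?_))
    rw [sum_const, card_univ, Fintype.card_fin, nsmul_eq_mul]
    ring
  have hpart : (s''.card : ℝ) + bad.card = N := by
    rw [hN]
    exact_mod_cast card_filter_add_card_filter_not (s := s)
      (fun i => ∀ j, 2 * X ≤ (((F i j).val : ℕ) : ℝ))
  have hΔ : 17 * r * N * β ≤ 17 * r * N * γ := mul_le_mul_of_nonneg_left b5 (by positivity)
  have hΔ2 : 17 * r * N * β ≤ N / 2 := by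
    have e1 : 34 * (r : ℝ) * β ≤ 1 := by
      have e2 : β ≤ 1 / (4 * X) := b6
      have e3 : 34 * (r : ℝ) * β ≤ 34 * r * (1 / (4 * X)) := mul_le_mul_of_nonneg_left e2 (by positivity)
      have e4 : 34 * (r : ℝ) * (1 / (4 * X)) ≤ 1 := by
        rw [mul_one_div, div_le_one (by positivity)]
        linarith
      linarith
    nlinarith
  have hs''N : N / 2 ≤ s''.card := by linarith
  have hs''ne : s''.Nonempty := by
    rw [← card_pos]
    have : (0 : ℝ) < s''.card := by linarith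
    exact_mod_cast this
  obtain ⟨i, hi, hi2⟩ := hcr ι s'' (fun i j => (((F i j).val : ℕ) : ℤ)) hs''ne (by
    intro q hq hqX ρ
    have hq0 : (0 : ℝ) < q := by exact_mod_cast hq
    have hq1 : (1 : ℝ) ≤ q := by exact_mod_cast hq
    have hqX' : (q : ℝ) ≤ X := by
      calc (q : ℝ) ≤ X ^ (2 / 5 : ℝ) := hqX
        _ ≤ X ^ (1 : ℝ) := Real.rpow_le_rpow_of_exponent_le hX1 (by norm_num)
        _ = X := Real.rpow_one X
    have h2 := hcls q hq hqX' ρ
    have h3 : ((s''.filter (fun i => ∀ j, (q : ℤ) ∣ (((F i j).val : ℕ) : ℤ) - ρ j)).card : ℝ) ≤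
        ((s.filter (fun i => ∀ j, (q : ℤ) ∣ (((F i j).val : ℕ) : ℤ) - ρ j)).card : ℝ) := by
      have : s''.filter (fun i => ∀ j, (q : ℤ) ∣ (((F i j).val : ℕ) : ℤ) - ρ j) ⊆
          s.filter (fun i => ∀ j, (q : ℤ) ∣ (((F i j).val : ℕ) : ℤ) - ρ j) :=
        filter_subset_filter _ (filter_subset _ _)
      exact_mod_cast card_le_card this
    have h4 : ((s.filter (fun i => ∀ j, (q : ℤ) ∣ (((F i j).val : ℕ) : ℤ) - ρ j)).card : ℝ) ≤
        ((s''.filter (fun i => ∀ j, (q : ℤ) ∣ (((F i j).val : ℕ) : ℤ) - ρ j)).card : ℝ) +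
          bad.card := by
      have : s.filter (fun i => ∀ j, (q : ℤ) ∣ (((F i j).val : ℕ) : ℤ) - ρ j) ⊆
          s''.filter (fun i => ∀ j, (q : ℤ) ∣ (((F i j).val : ℕ) : ℤ) - ρ j) ∪ bad := by
        intro i hi
        rw [mem_filter] at hi
        rw [mem_union, mem_filter, hs'', mem_filter, hbad, mem_filter]
        by_cases h5 : ∀ j, 2 * X ≤ (((F i j).val : ℕ) : ℝ)
        · exact Or.inl ⟨⟨hi.1, h5⟩, hi.2⟩
        · exact Or.inr ⟨hi.1, h5⟩
      have h6 := (card_le_card this).trans (card_union_le _ _)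
      exact_mod_cast h6
    have hqr1 : (1 : ℝ) ≤ (q : ℝ) ^ r := one_le_pow₀ hq1
    have h5 : |N / (q : ℝ) ^ r - s''.card / (q : ℝ) ^ r| ≤ 17 * r * N * γ := by
      have e1 : N / (q : ℝ) ^ r - s''.card / (q : ℝ) ^ r = bad.card / (q : ℝ) ^ r := by
        rw [← hpart]
        ring
      rw [e1, abs_of_nonneg (by positivity)]
      calc (bad.card : ℝ) / (q : ℝ) ^ r ≤ bad.card := div_le_self (Nat.cast_nonneg _) hqr1
        _ ≤ _ := hbadc.trans hΔ
    have h6 : X ^ (-(2 * (r : ℝ))) = (X ^ (2 * r))⁻¹ := by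
      rw [Real.rpow_neg hX0.le]
      congr 1
      rw [← Real.rpow_natCast]
      congr 1
      push_cast
      ring
    rw [h6]
    have h7 : N * (38 * r + 5) * γ ≤ s''.card * (X ^ (2 * r))⁻¹ := by
      have e1 : γ = (X ^ (2 * r))⁻¹ * (X ^ r)⁻¹ := by
        rw [hγ, ← mul_inv, ← pow_add]
        congr 2
        ring
      have e2 : X ≤ X ^ r := by
        calc X = X ^ 1 := (pow_one X).symm
          _ ≤ X ^ r := hmono _ _ hr
      have e3 : 2 * (38 * (r : ℝ) + 5) * (X ^ r)⁻¹ ≤ 1 := by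
        rw [← div_eq_mul_inv, div_le_one (by positivity)]
        linarith
      have e4 : 0 < (X ^ (2 * r))⁻¹ := by positivity
      rw [e1]
      calc N * (38 * r + 5) * ((X ^ (2 * r))⁻¹ * (X ^ r)⁻¹) =
            (N / 2) * (X ^ (2 * r))⁻¹ * (2 * (38 * (r : ℝ) + 5) * (X ^ r)⁻¹) := by ring
        _ ≤ (N / 2) * (X ^ (2 * r))⁻¹ * 1 := mul_le_mul_of_nonneg_left e3 (by positivity)
        _ = (N / 2) * (X ^ (2 * r))⁻¹ := mul_one _
        _ ≤ s''.card * (X ^ (2 * r))⁻¹ := mul_le_mul_of_nonneg_right hs''N e4.le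
    refine le_trans ?_ h7
    have hb := hbadc.trans hΔ
    rw [abs_le] at h2 h5 ⊢
    obtain ⟨h2a, h2b⟩ := h2
    obtain ⟨h5a, h5b⟩ := h5
    have e5 : N * (38 * r + 5) * γ = N * (4 * r + 5) * γ + 17 * r * N * γ + 17 * r * N * γ := by ring
    rw [e5]
    constructor <;> linarith)
  rw [hs'', mem_filter] at hi
  refine ⟨i, hi.1, fun j q hq => ?_⟩
  by_contra hcon
  push Not at hcon
  have h6 : κ * (η / 32) * ff P ≤ κ * Pool.Agent.H256R2.SC.ff X := by
    calc κ * (η / 32) * ff P = κ * (η / 32 * ff P) := by ring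
      _ ≤ _ := mul_le_mul_of_nonneg_left c1 hκ.le
  obtain ⟨p, hp, hpX', hpd⟩ := hi2 j q (by
    push_cast
    linarith)
  have h7 : p = q := (Nat.prime_dvd_prime_iff_eq hp hq).mp (by exact_mod_cast hpd)
  rw [h7] at hpX'
  have h8 : 2 * X ≤ (((F i j).val : ℕ) : ℝ) := hi.2 j
  have h10 := (abs_le.mp hcon).1
  have h11 : X ^ (1 / 10 : ℝ) ≤ X := by
    calc X ^ (1 / 10 : ℝ) ≤ X ^ (1 : ℝ) := Real.rpow_le_rpow_of_exponent_le hX1 (by norm_num)
      _ = X := Real.rpow_one X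
  linarith

end Pool.Agent.H763_mp
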