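import Pool.Agent.H763_mp.JCrt
import Pool.Agent.H763_mp.App

set_option autoImplicit false

/-! Systems of kernels with square-root cancellation along sums of two arbitrary sets modulo a
prime, and systems of polynomials. -/

namespace Pool.Agent.H763_mp

open Finset Filter Polynomial
open Pool.Agent.W147.PS (ff)

/-- systems of kernels along sums of two sets -/
theorem jkernel (r : ℕ) (hr : 1 ≤ r) (ε : ℝ) (hε : 0 < ε) (hε1 : ε ≤ 1) (D : ℕ) : ∃ κ : ℝ, 0 < κ ∧ ∃ P₀ : ℕ,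
    ∀ P : ℕ, P₀ ≤ P → ∀ [Fact P.Prime], ∀ (Z : Finset (ZMod P))
    (Φ : Fin r → ZMod P → ZMod P),
    Z.card ≤ D → (∀ k : Fin r → ZMod P, k ≠ 0 → ∀ c : ZMod P,
      ‖∑ x : ZMod P, (if x ∈ Z then (0 : ℂ) else
        (ZMod.stdAddChar (N := P)) (∑ j, k j * Φ j x + c * x))‖ ≤ D * Real.sqrt P) →
    ∀ A B : Finset (ZMod P), (P : ℝ) ^ (1 + ε) ≤ (A.card : ℝ) * B.card →
    ∀ f g : Fin r → ZMod P → ZMod P, ∃ a ∈ A, ∃ b ∈ B, a + b ∉ Z ∧ ∀ j, ∀ q : ℕ, q.Prime →
      κ * ff P < |(q : ℝ) - ((Φ j (a + b) + f j a + g j b).val : ℕ)| := by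
  classical
  obtain ⟨κ, hκ, P₁, hcr⟩ := jcriterion r hr (ε / 4) (by positivity) (by linarith)
  have hT := tendsto_rpow_atTop (show (0 : ℝ) < ε / 4 by positivity)
  obtain ⟨P₂, hP₂⟩ := eventually_atTop.1 (tendsto_natCast_atTop_atTop.eventually
    (hT.eventually_ge_atTop ((2 * D + 1 : ℕ) : ℝ)))
  refine ⟨κ, hκ, max P₁ P₂, fun P hP hPf Z Φ hZ hΦ A B hAB f g => ?_⟩
  have hPp : P.Prime := hPf.out
  have hPr : (0 : ℝ) < P := by exact_mod_cast hPp.pos
  have hP1 : (1 : ℝ) ≤ P := by exact_mod_cast hPp.one_lt.le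
  have hbig : ((2 * D + 1 : ℕ) : ℝ) ≤ (P : ℝ) ^ (ε / 4) := hP₂ P ((le_max_right _ _).trans hP)
  set s : Finset (ZMod P × ZMod P) := (A ×ˢ B).filter (fun p => p.1 + p.2 ∉ Z) with hs
  set N : ℝ := (A.card : ℝ) * B.card with hN
  have hN0 : 0 < N := lt_of_lt_of_le (Real.rpow_pos_of_pos hPr _) hAB
  -- the size of `B`
  have hA1 : (A.card : ℝ) ≤ P := by
    have : A.card ≤ Fintype.card (ZMod P) := card_le_univ A
    rw [ZMod.card] at this
    exact_mod_cast this
  have hB1 : (2 * D + 1 : ℝ) ≤ B.card := by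
    have e1 : (P : ℝ) ^ (1 + ε) = P * (P : ℝ) ^ ε := by
      rw [Real.rpow_add hPr, Real.rpow_one]
    have e2 : (P : ℝ) ^ ε ≤ B.card := by
      have : (P : ℝ) * (P : ℝ) ^ ε ≤ P * B.card := by
        rw [← e1]
        exact hAB.trans (mul_le_mul_of_nonneg_right hA1 (Nat.cast_nonneg _))
      exact le_of_mul_le_mul_left this hPr
    have e3 : (P : ℝ) ^ (ε / 4) ≤ (P : ℝ) ^ ε := Real.rpow_le_rpow_of_exponent_le hP1 (by linarith)
    push_cast at hbig
    linarith
  -- the number of pairs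
  have hscard : N / 2 ≤ s.card := by
    have e1 : ((A ×ˢ B).filter (fun p => ¬ (p.1 + p.2 ∉ Z))).card ≤ A.card * Z.card := by
      rw [← card_product]
      refine card_le_card_of_injOn (fun p => (p.1, p.1 + p.2)) ?_ ?_
      · intro p hp
        rw [mem_coe, mem_filter, mem_product, not_not] at hp
        rw [mem_coe, mem_product]
        exact ⟨hp.1.1, hp.2⟩
      · intro p _ p' _ hpp
        simp only [Prod.mk.injEq] at hpp
        obtain ⟨h1, h2⟩ := hpp
        refine Prod.ext h1 ?_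
        rw [h1] at h2
        exact add_left_cancel h2
    have e2 : s.card + ((A ×ˢ B).filter (fun p => ¬ (p.1 + p.2 ∉ Z))).card = A.card * B.card := by
      rw [hs, card_filter_add_card_filter_not, card_product]
    have e3 : (s.card : ℝ) + (((A ×ˢ B).filter (fun p => ¬ (p.1 + p.2 ∉ Z))).card : ℝ) = N := by
      rw [hN]
      exact_mod_cast e2
    have e4 : ((((A ×ˢ B).filter (fun p => ¬ (p.1 + p.2 ∉ Z))).card : ℕ) : ℝ) ≤
        (A.card : ℝ) * D := by
      calc ((((A ×ˢ B).filter (fun p => ¬ (p.1 + p.2 ∉ Z))).card : ℕ) : ℝ) ≤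
            ((A.card * Z.card : ℕ) : ℝ) := by exact_mod_cast e1
        _ = (A.card : ℝ) * Z.card := by push_cast; ring
        _ ≤ (A.card : ℝ) * D := by
            have : (Z.card : ℝ) ≤ D := by exact_mod_cast hZ
            gcongr
    have e5 : (A.card : ℝ) * D ≤ N / 2 := by
      rw [hN]
      have : (0 : ℝ) ≤ A.card := Nat.cast_nonneg _
      nlinarith
    linarith
  have hs0 : 0 < (s.card : ℝ) := by linarith
  have hsne : s.Nonempty := by
    rw [← card_pos]
    exact_mod_cast hs0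
  obtain ⟨p, hp, hfar⟩ := hcr P ((le_max_left _ _).trans hP) (ZMod P × ZMod P) s
    (fun p j => Φ j (p.1 + p.2) + f j p.1 + g j p.2) hsne (by
      intro k hk
      have e1 : ∑ p ∈ s, (ZMod.stdAddChar (N := P))
            (∑ j, k j * (Φ j (p.1 + p.2) + f j p.1 + g j p.2)) =
          ∑ a ∈ A, ∑ b ∈ B, (ZMod.stdAddChar (N := P)) (∑ j, k j * f j a) *
            (ZMod.stdAddChar (N := P)) (∑ j, k j * g j b) *
            (if a + b ∈ Z then (0 : ℂ) else
              (ZMod.stdAddChar (N := P)) (∑ j, k j * Φ j (a + b))) := by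
        rw [hs, sum_filter, ← sum_product']
        refine sum_congr rfl fun p _ => ?_
        by_cases hz : p.1 + p.2 ∈ Z
        · simp [hz]
        · rw [if_pos hz, if_neg hz]
          have h7 : ∑ j, k j * (Φ j (p.1 + p.2) + f j p.1 + g j p.2) =
              ∑ j, k j * f j p.1 + ∑ j, k j * g j p.2 + ∑ j, k j * Φ j (p.1 + p.2) := by
            rw [← sum_add_distrib, ← sum_add_distrib]
            exact sum_congr rfl fun j _ => by ring
          rw [h7, AddChar.map_add_eq_mul, AddChar.map_add_eq_mul]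
      rw [e1]
      have e2 := conv P (fun x => if x ∈ Z then (0 : ℂ) else
          (ZMod.stdAddChar (N := P)) (∑ j, k j * Φ j x))
        (D * Real.sqrt P) (by
          intro c
          have h8 : ∀ x : ZMod P, (if x ∈ Z then (0 : ℂ) else
              (ZMod.stdAddChar (N := P)) (∑ j, k j * Φ j x)) *
              (ZMod.stdAddChar (N := P)) (c * x) =
              (if x ∈ Z then (0 : ℂ) else
                (ZMod.stdAddChar (N := P)) (∑ j, k j * Φ j x + c * x)) := by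
            intro x
            by_cases hz : x ∈ Z
            · simp [hz]
            · rw [if_neg hz, if_neg hz, AddChar.map_add_eq_mul]
          rw [sum_congr rfl (fun x _ => h8 x)]
          exact hΦ k hk c) A B
        (fun a => (ZMod.stdAddChar (N := P)) (∑ j, k j * f j a))
        (fun b => (ZMod.stdAddChar (N := P)) (∑ j, k j * g j b))
        (fun a => (AddChar.norm_apply _ _).le) (fun a => (AddChar.norm_apply _ _).le)
      refine e2.trans ?_
      rw [← hN]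
      have f1 : (P : ℝ) ^ (-(ε / 2)) * (P : ℝ) ^ (ε / 2) = 1 := by
        rw [← Real.rpow_add hPr]; simp
      have f2 : (P : ℝ) ^ (-(ε / 4)) * (P : ℝ) ^ (ε / 4) = 1 := by
        rw [← Real.rpow_add hPr]; simp
      have f3 : 0 < (P : ℝ) ^ (-(ε / 4)) := Real.rpow_pos_of_pos hPr _
      have f4 : 0 < (P : ℝ) ^ (-(ε / 2)) := Real.rpow_pos_of_pos hPr _
      have f5 : (P : ℝ) ^ (-(ε / 2)) = (P : ℝ) ^ (-(ε / 4)) * (P : ℝ) ^ (-(ε / 4)) := by
        rw [← Real.rpow_add hPr]; congr 1; ring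
      have f6 : Real.sqrt P * (P : ℝ) ^ (ε / 2) ≤ Real.sqrt N := by
        have : Real.sqrt P * (P : ℝ) ^ (ε / 2) = Real.sqrt ((P : ℝ) ^ (1 + ε)) := by
          rw [Real.sqrt_eq_rpow, Real.sqrt_eq_rpow, ← Real.rpow_mul hPr.le, ← Real.rpow_add hPr]
          congr 1
          ring
        rw [this]
        exact Real.sqrt_le_sqrt hAB
      have f7 : Real.sqrt P ≤ Real.sqrt N * (P : ℝ) ^ (-(ε / 2)) := by
        calc Real.sqrt P = Real.sqrt P * (P : ℝ) ^ (ε / 2) * (P : ℝ) ^ (-(ε / 2)) := by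
              rw [mul_assoc, mul_comm ((P : ℝ) ^ (ε / 2)), f1, mul_one]
          _ ≤ _ := mul_le_mul_of_nonneg_right f6 f4.le
      have f8 : Real.sqrt N * Real.sqrt N = N := Real.mul_self_sqrt hN0.le
      have f9 : (D : ℝ) * (P : ℝ) ^ (-(ε / 4)) ≤ 1 / 2 := by
        have g1 : (2 * D + 1 : ℝ) * (P : ℝ) ^ (-(ε / 4)) ≤ 1 := by
          push_cast at hbig
          calc (2 * D + 1 : ℝ) * (P : ℝ) ^ (-(ε / 4)) ≤ (P : ℝ) ^ (ε / 4) * (P : ℝ) ^ (-(ε / 4)) :=
                mul_le_mul_of_nonneg_right hbig f3.le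
            _ = 1 := by rw [mul_comm]; exact f2
        nlinarith
      calc (D : ℝ) * Real.sqrt P * Real.sqrt N ≤
            D * (Real.sqrt N * (P : ℝ) ^ (-(ε / 2))) * Real.sqrt N := by gcongr
        _ = ((D : ℝ) * (P : ℝ) ^ (-(ε / 4))) * (Real.sqrt N * Real.sqrt N) *
              (P : ℝ) ^ (-(ε / 4)) := by rw [f5]; ring
        _ ≤ (1 / 2) * N * (P : ℝ) ^ (-(ε / 4)) := by
            rw [f8]
            gcongr
        _ ≤ s.card * (P : ℝ) ^ (-(ε / 4)) := by
            apply mul_le_mul_of_nonneg_right _ f3.le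
            linarith)
  rw [hs, mem_filter, mem_product] at hp
  exact ⟨p.1, hp.1.1, p.2, hp.1.2, hp.2, hfar⟩

/-- systems of polynomials -/
theorem polys (r : ℕ) (hr : 1 ≤ r) (ε : ℝ) (hε : 0 < ε) (D : ℕ) : ∃ κ : ℝ, 0 < κ ∧ ∃ P₀ : ℕ,
    ∀ P : ℕ, P₀ ≤ P → ∀ [Fact P.Prime], ∀ φ : Fin r → (ZMod P)[X], (∀ j, (φ j).natDegree ≤ D) →
    (∀ k : Fin r → ZMod P, k ≠ 0 → 2 ≤ (∑ j, C (k j) * φ j).natDegree) →
    ∀ A B : Finset (ZMod P), (P : ℝ) ^ (1 + ε) ≤ (A.card : ℝ) * B.card →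
    ∀ f g : Fin r → ZMod P → ZMod P, ∃ a ∈ A, ∃ b ∈ B, ∀ j, ∀ q : ℕ, q.Prime →
      κ * ff P < |(q : ℝ) - (((φ j).eval (a + b) + f j a + g j b).val : ℕ)| := by
  classical
  obtain ⟨κ, hκ, P₁, h⟩ := jkernel r hr (min ε 1) (lt_min hε one_pos) (min_le_right _ _) (D + 1)
  refine ⟨κ, hκ, max P₁ (D + 1), fun P hP hPf φ hφ hφ2 A B hAB f g => ?_⟩
  have hPp : P.Prime := hPf.out
  have hP1 : (1 : ℝ) ≤ P := by exact_mod_cast hPp.one_lt.le
  have hPD : D + 1 ≤ P := (le_max_right _ _).trans hP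
  have hAB' : (P : ℝ) ^ (1 + min ε 1) ≤ (A.card : ℝ) * B.card :=
    (Real.rpow_le_rpow_of_exponent_le hP1 (by
      have := min_le_left ε 1
      linarith)).trans hAB
  obtain ⟨a, ha, b, hb, _, h2⟩ := h P ((le_max_left _ _).trans hP) {0}
    (fun j x => (φ j).eval x) (by rw [card_singleton]; omega) (by
      intro k hk c
      have hdeg : (∑ j, C (k j) * φ j).natDegree ≤ D :=
        natDegree_sum_le_of_forall_le _ _ fun j _ => (natDegree_C_mul_le _ _).trans (hφ j)
      have h3 := poly_bound P (∑ j, C (k j) * φ j) (hφ2 k hk) (by omega) 1 c one_ne_zero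
      have h4 : ∀ x : ZMod P, 1 * (∑ j, C (k j) * φ j).eval x + c * x =
          ∑ j, k j * (φ j).eval x + c * x := by
        intro x
        rw [one_mul, eval_finsetSum]
        congr 1
        exact sum_congr rfl fun j _ => by rw [eval_mul, eval_C]
      simp only [h4] at h3
      refine h3.trans ?_
      gcongr
      omega) A B hAB' f g
  exact ⟨a, ha, b, hb, h2⟩

end Pool.Agent.H763_mp
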