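import Pool.Agent.H763_mp.Crt

set_option autoImplicit false

/-! Kernels with square-root cancellation along sums of two arbitrary sets modulo a prime. -/

namespace Pool.Agent.H763_mp

open Finset Filter
open Pool.Agent.W147.PS (ff)

lemma sum_std (P : ℕ) [Fact P.Prime] (x : ZMod P) :
    ∑ c : ZMod P, (ZMod.stdAddChar (N := P)) (c * x) = if x = 0 then (P : ℂ) else 0 := by
  have h := AddChar.sum_mulShift x (ZMod.isPrimitive_stdAddChar P)
  rw [ZMod.card] at h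
  exact_mod_cast h

lemma conj_std (P : ℕ) [Fact P.Prime] (x : ZMod P) :
    (starRingEnd ℂ) ((ZMod.stdAddChar (N := P)) x) = (ZMod.stdAddChar (N := P)) (-x) := by
  rw [AddChar.map_neg_eq_conj]

lemma parseval (P : ℕ) [Fact P.Prime] (A : Finset (ZMod P)) (u : ZMod P → ℂ)
    (hu : ∀ a, ‖u a‖ ≤ 1) :
    ∑ c : ZMod P, ‖∑ a ∈ A, u a * (ZMod.stdAddChar (N := P)) (-(c * a))‖ ^ 2 ≤ (P : ℝ) * A.card := by
  classical
  have h6 : ∀ c : ZMod P, ((‖∑ a ∈ A, u a * (ZMod.stdAddChar (N := P)) (-(c * a))‖ ^ 2 : ℝ) : ℂ) =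
      ∑ a ∈ A, ∑ a' ∈ A, (u a * (starRingEnd ℂ) (u a')) *
        (ZMod.stdAddChar (N := P)) (c * (a' - a)) := by
    intro c
    have : ((‖∑ a ∈ A, u a * (ZMod.stdAddChar (N := P)) (-(c * a))‖ ^ 2 : ℝ) : ℂ) =
        (∑ a ∈ A, u a * (ZMod.stdAddChar (N := P)) (-(c * a))) *
          (starRingEnd ℂ) (∑ a ∈ A, u a * (ZMod.stdAddChar (N := P)) (-(c * a))) := by
      rw [Complex.mul_conj, Complex.normSq_eq_norm_sq]
    rw [this, map_sum, sum_mul_sum]
    refine sum_congr rfl fun a _ => sum_congr rfl fun a' _ => ?_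
    rw [map_mul, conj_std]
    have h7 : c * (a' - a) = -(c * a) + -(-(c * a')) := by ring
    rw [h7, AddChar.map_add_eq_mul]
    ring
  have h7 : ((∑ c : ZMod P, ‖∑ a ∈ A, u a * (ZMod.stdAddChar (N := P)) (-(c * a))‖ ^ 2 : ℝ) : ℂ) =
      ((∑ a ∈ A, (P : ℝ) * ‖u a‖ ^ 2 : ℝ) : ℂ) := by
    rw [Complex.ofReal_sum, sum_congr rfl (fun c _ => h6 c), sum_comm, Complex.ofReal_sum]
    refine sum_congr rfl fun a ha => ?_
    rw [sum_comm]
    have h9 : ∀ a' ∈ A, ∑ c : ZMod P, (u a * (starRingEnd ℂ) (u a')) *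
        (ZMod.stdAddChar (N := P)) (c * (a' - a)) =
        if a' = a then (u a * (starRingEnd ℂ) (u a)) * P else 0 := by
      intro a' _
      rw [← mul_sum, sum_std]
      by_cases h : a' = a
      · subst h
        simp
      · rw [if_neg h, if_neg (sub_ne_zero.2 h), mul_zero]
    rw [sum_congr rfl h9, sum_ite_eq' A a, if_pos ha, Complex.mul_conj, Complex.normSq_eq_norm_sq]
    push_cast
    ring
  have h8 : ∑ c : ZMod P, ‖∑ a ∈ A, u a * (ZMod.stdAddChar (N := P)) (-(c * a))‖ ^ 2 =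
      ∑ a ∈ A, (P : ℝ) * ‖u a‖ ^ 2 := by exact_mod_cast h7
  rw [h8]
  calc ∑ a ∈ A, (P : ℝ) * ‖u a‖ ^ 2 ≤ ∑ a ∈ A, (P : ℝ) := by
        refine sum_le_sum fun a _ => ?_
        have : ‖u a‖ ^ 2 ≤ 1 := pow_le_one₀ (norm_nonneg _) (hu a)
        exact mul_le_of_le_one_right (Nat.cast_nonneg _) this
    _ = (P : ℝ) * A.card := by rw [sum_const, nsmul_eq_mul]; ring

lemma conv (P : ℕ) [Fact P.Prime] (h : ZMod P → ℂ) (C : ℝ)
    (hC : ∀ c : ZMod P, ‖∑ x : ZMod P, h x * (ZMod.stdAddChar (N := P)) (c * x)‖ ≤ C)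
    (A B : Finset (ZMod P)) (u v : ZMod P → ℂ) (hu : ∀ a, ‖u a‖ ≤ 1) (hv : ∀ a, ‖v a‖ ≤ 1) :
    ‖∑ a ∈ A, ∑ b ∈ B, u a * v b * h (a + b)‖ ≤ C * Real.sqrt ((A.card : ℝ) * B.card) := by
  classical
  have hPr : (0 : ℝ) < P := by exact_mod_cast (Fact.out : P.Prime).pos
  have hC0 : 0 ≤ C := (norm_nonneg _).trans (hC 0)
  set U : ZMod P → ℂ := fun c => ∑ a ∈ A, u a * (ZMod.stdAddChar (N := P)) (-(c * a)) with hU
  set V : ZMod P → ℂ := fun c => ∑ b ∈ B, v b * (ZMod.stdAddChar (N := P)) (-(c * b)) with hV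
  have h1 : ∑ c : ZMod P, (∑ x : ZMod P, h x * (ZMod.stdAddChar (N := P)) (c * x)) * (U c * V c) =
      (P : ℂ) * ∑ a ∈ A, ∑ b ∈ B, u a * v b * h (a + b) := by
    have h2 : ∀ c : ZMod P, (∑ x : ZMod P, h x * (ZMod.stdAddChar (N := P)) (c * x)) * (U c * V c) =
        ∑ a ∈ A, ∑ b ∈ B, ∑ x : ZMod P,
          (u a * v b * h x) * (ZMod.stdAddChar (N := P)) (c * (x - (a + b))) := by
      intro c
      rw [hU, hV, sum_mul_sum, mul_sum]
      refine sum_congr rfl fun a _ => ?_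
      rw [mul_sum]
      refine sum_congr rfl fun b _ => ?_
      rw [sum_mul]
      refine sum_congr rfl fun x _ => ?_
      have h7 : c * (x - (a + b)) = c * x + -(c * a) + -(c * b) := by ring
      rw [h7, AddChar.map_add_eq_mul, AddChar.map_add_eq_mul]
      ring
    rw [sum_congr rfl (fun c _ => h2 c), sum_comm, mul_sum]
    refine sum_congr rfl fun a _ => ?_
    rw [sum_comm, mul_sum]
    refine sum_congr rfl fun b _ => ?_
    rw [sum_comm]
    have h9 : ∀ x : ZMod P, ∑ c : ZMod P, (u a * v b * h x) *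
        (ZMod.stdAddChar (N := P)) (c * (x - (a + b))) =
        if x = a + b then (P : ℂ) * (u a * v b * h (a + b)) else 0 := by
      intro x
      rw [← mul_sum, sum_std]
      by_cases hx : x = a + b
      · subst hx
        simp
        ring
      · rw [if_neg hx, if_neg (sub_ne_zero.2 hx), mul_zero]
    rw [sum_congr rfl (fun x _ => h9 x), sum_ite_eq' univ (a + b), if_pos (mem_univ _)]
  have h3 : (P : ℝ) * ‖∑ a ∈ A, ∑ b ∈ B, u a * v b * h (a + b)‖ ≤
      C * ∑ c : ZMod P, ‖U c‖ * ‖V c‖ := by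
    have h4 : (P : ℝ) * ‖∑ a ∈ A, ∑ b ∈ B, u a * v b * h (a + b)‖ =
        ‖(P : ℂ) * ∑ a ∈ A, ∑ b ∈ B, u a * v b * h (a + b)‖ := by
      rw [norm_mul, Complex.norm_natCast]
    rw [h4, ← h1, mul_sum]
    refine (norm_sum_le _ _).trans (sum_le_sum fun c _ => ?_)
    rw [norm_mul, norm_mul]
    exact mul_le_mul_of_nonneg_right (hC c) (by positivity)
  have h4 : ∑ c : ZMod P, ‖U c‖ * ‖V c‖ ≤
      Real.sqrt (∑ c : ZMod P, ‖U c‖ ^ 2) * Real.sqrt (∑ c : ZMod P, ‖V c‖ ^ 2) :=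
    Real.sum_mul_le_sqrt_mul_sqrt _ _ _
  have h5 : Real.sqrt (∑ c : ZMod P, ‖U c‖ ^ 2) * Real.sqrt (∑ c : ZMod P, ‖V c‖ ^ 2) ≤
      Real.sqrt ((P : ℝ) * A.card) * Real.sqrt ((P : ℝ) * B.card) :=
    mul_le_mul (Real.sqrt_le_sqrt (parseval P A u hu)) (Real.sqrt_le_sqrt (parseval P B v hv))
      (Real.sqrt_nonneg _) (Real.sqrt_nonneg _)
  have h6 : Real.sqrt ((P : ℝ) * A.card) * Real.sqrt ((P : ℝ) * B.card) =
      P * Real.sqrt ((A.card : ℝ) * B.card) := by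
    rw [← Real.sqrt_mul (by positivity)]
    have : (P : ℝ) * A.card * ((P : ℝ) * B.card) = (P : ℝ) ^ 2 * ((A.card : ℝ) * B.card) := by ring
    rw [this, Real.sqrt_mul (by positivity), Real.sqrt_sq hPr.le]
  have h7 : (P : ℝ) * ‖∑ a ∈ A, ∑ b ∈ B, u a * v b * h (a + b)‖ ≤
      P * (C * Real.sqrt ((A.card : ℝ) * B.card)) := by
    calc _ ≤ C * ∑ c : ZMod P, ‖U c‖ * ‖V c‖ := h3
      _ ≤ C * (P * Real.sqrt ((A.card : ℝ) * B.card)) := by
          rw [← h6]
          exact mul_le_mul_of_nonneg_left (h4.trans h5) hC0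
      _ = _ := by ring
  exact le_of_mul_le_mul_left h7 hPr

/-- kernels along sums of two sets -/
theorem kernel (ε : ℝ) (hε : 0 < ε) (hε1 : ε ≤ 1) (D : ℕ) : ∃ κ : ℝ, 0 < κ ∧ ∃ P₀ : ℕ,
    ∀ P : ℕ, P₀ ≤ P → ∀ [Fact P.Prime], ∀ (Z : Finset (ZMod P)) (Φ : ZMod P → ZMod P),
    Z.card ≤ D → (∀ k : ZMod P, k ≠ 0 → ∀ c : ZMod P,
      ‖∑ x : ZMod P, (if x ∈ Z then (0 : ℂ) else (ZMod.stdAddChar (N := P)) (k * Φ x + c * x))‖ ≤
        D * Real.sqrt P) →
    ∀ A B : Finset (ZMod P), (P : ℝ) ^ (1 + ε) ≤ (A.card : ℝ) * B.card →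
    ∀ f g : ZMod P → ZMod P, ∃ a ∈ A, ∃ b ∈ B, a + b ∉ Z ∧
      P ≤ 2 * (Φ (a + b) + f a + g b).val ∧ ∀ q : ℕ, q.Prime →
      κ * ff P < |(q : ℝ) - ((Φ (a + b) + f a + g b).val : ℕ)| := by
  classical
  obtain ⟨κ, hκ, P₁, hcr⟩ := criterion (ε / 4) (by positivity) (by linarith)
  have hT := tendsto_rpow_atTop (show (0 : ℝ) < ε / 4 by positivity)
  obtain ⟨P₂, hP₂⟩ := eventually_atTop.1 (tendsto_natCast_atTop_atTop.eventually
    (hT.eventually_ge_atTop ((2 * D + 1 : ℕ) : ℝ)))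
  refine ⟨κ, hκ, max P₁ P₂, fun P hP hPf Z Φ hZ hΦ A B hAB f g => ?_⟩
  have hPp : P.Prime := hPf.out
  have hPr : (0 : ℝ) < P := by exact_mod_cast hPp.pos
  have hP1 : (1 : ℝ) ≤ P := by exact_mod_cast hPp.one_lt.le
  have hbig : ((2 * D + 1 : ℕ) : ℝ) ≤ (P : ℝ) ^ (ε / 4) := hP₂ P ((le_max_right _ _).trans hP)
  set s : Finset (ZMod P × ZMod P) := (A ×ˢ B).filter (fun p => p.1 + p.2 ∉ Z) with hs
  set N : ℝ := (A.card : ℝ) * B.card with hN
  have hN0 : 0 < N := lt_of_lt_of_le (Real.rpow_pos_of_pos hPr _) hAB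
  -- the size of `B`
  have hA1 : (A.card : ℝ) ≤ P := by
    have : A.card ≤ Fintype.card (ZMod P) := card_le_univ A
    rw [ZMod.card] at this
    exact_mod_cast this
  have hB1 : (2 * D + 1 : ℝ) ≤ B.card := by
    have e1 : (P : ℝ) ^ (1 + ε) = P * (P : ℝ) ^ ε := by
      rw [Real.rpow_add hPr, Real.rpow_one]
    have e2 : (P : ℝ) ^ ε ≤ B.card := by
      have : (P : ℝ) * (P : ℝ) ^ ε ≤ P * B.card := by
        rw [← e1]
        exact hAB.trans (mul_le_mul_of_nonneg_right hA1 (Nat.cast_nonneg _))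
      exact le_of_mul_le_mul_left this hPr
    have e3 : (P : ℝ) ^ (ε / 4) ≤ (P : ℝ) ^ ε := Real.rpow_le_rpow_of_exponent_le hP1 (by linarith)
    push_cast at hbig
    linarith
  -- the number of pairs
  have hscard : N / 2 ≤ s.card := by
    have e1 : ((A ×ˢ B).filter (fun p => ¬ (p.1 + p.2 ∉ Z))).card ≤ A.card * Z.card := by
      rw [← card_product]
      refine card_le_card_of_injOn (fun p => (p.1, p.1 + p.2)) ?_ ?_
      · intro p hp
        rw [mem_coe, mem_filter, mem_product, not_not] at hp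
        rw [mem_coe, mem_product]
        exact ⟨hp.1.1, hp.2⟩
      · intro p _ p' _ hpp
        simp only [Prod.mk.injEq] at hpp
        obtain ⟨h1, h2⟩ := hpp
        refine Prod.ext h1 ?_
        rw [h1] at h2
        exact add_left_cancel h2
    have e2 : s.card + ((A ×ˢ B).filter (fun p => ¬ (p.1 + p.2 ∉ Z))).card = A.card * B.card := by
      rw [hs, card_filter_add_card_filter_not, card_product]
    have e3 : (s.card : ℝ) + (((A ×ˢ B).filter (fun p => ¬ (p.1 + p.2 ∉ Z))).card : ℝ) = N := by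
      rw [hN]
      exact_mod_cast e2
    have e4 : ((((A ×ˢ B).filter (fun p => ¬ (p.1 + p.2 ∉ Z))).card : ℕ) : ℝ) ≤
        (A.card : ℝ) * D := by
      calc ((((A ×ˢ B).filter (fun p => ¬ (p.1 + p.2 ∉ Z))).card : ℕ) : ℝ) ≤
            ((A.card * Z.card : ℕ) : ℝ) := by exact_mod_cast e1
        _ = (A.card : ℝ) * Z.card := by push_cast; ring
        _ ≤ (A.card : ℝ) * D := by
            have : (Z.card : ℝ) ≤ D := by exact_mod_cast hZ
            gcongr
    have e5 : (A.card : ℝ) * D ≤ N / 2 := by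
      rw [hN]
      have : (0 : ℝ) ≤ A.card := Nat.cast_nonneg _
      nlinarith
    linarith
  have hs0 : 0 < (s.card : ℝ) := by linarith
  have hsne : s.Nonempty := by
    rw [← card_pos]
    exact_mod_cast hs0
  obtain ⟨p, hp, hfar⟩ := hcr P ((le_max_left _ _).trans hP) (ZMod P × ZMod P) s
    (fun p => Φ (p.1 + p.2) + f p.1 + g p.2) hsne (by
      intro k hk
      have e1 : ∑ p ∈ s, (ZMod.stdAddChar (N := P)) (k * (Φ (p.1 + p.2) + f p.1 + g p.2)) =
          ∑ a ∈ A, ∑ b ∈ B, (ZMod.stdAddChar (N := P)) (k * f a) *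
            (ZMod.stdAddChar (N := P)) (k * g b) *
            (if a + b ∈ Z then (0 : ℂ) else (ZMod.stdAddChar (N := P)) (k * Φ (a + b))) := by
        rw [hs, sum_filter, ← sum_product']
        refine sum_congr rfl fun p _ => ?_
        by_cases hz : p.1 + p.2 ∈ Z
        · simp [hz]
        · rw [if_pos hz, if_neg hz]
          have h7 : k * (Φ (p.1 + p.2) + f p.1 + g p.2) =
              k * f p.1 + k * g p.2 + k * Φ (p.1 + p.2) := by ring
          rw [h7, AddChar.map_add_eq_mul, AddChar.map_add_eq_mul]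
      rw [e1]
      have e2 := conv P (fun x => if x ∈ Z then (0 : ℂ) else (ZMod.stdAddChar (N := P)) (k * Φ x))
        (D * Real.sqrt P) (by
          intro c
          have h8 : ∀ x : ZMod P, (if x ∈ Z then (0 : ℂ) else (ZMod.stdAddChar (N := P)) (k * Φ x)) *
              (ZMod.stdAddChar (N := P)) (c * x) =
              (if x ∈ Z then (0 : ℂ) else (ZMod.stdAddChar (N := P)) (k * Φ x + c * x)) := by
            intro x
            by_cases hz : x ∈ Z
            · simp [hz]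
            · rw [if_neg hz, if_neg hz, AddChar.map_add_eq_mul]
          rw [sum_congr rfl (fun x _ => h8 x)]
          exact hΦ k hk c) A B (fun a => (ZMod.stdAddChar (N := P)) (k * f a))
        (fun b => (ZMod.stdAddChar (N := P)) (k * g b))
        (fun a => (AddChar.norm_apply _ _).le) (fun a => (AddChar.norm_apply _ _).le)
      refine e2.trans ?_
      rw [← hN]
      have f1 : (P : ℝ) ^ (-(ε / 2)) * (P : ℝ) ^ (ε / 2) = 1 := by
        rw [← Real.rpow_add hPr]; simp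
      have f2 : (P : ℝ) ^ (-(ε / 4)) * (P : ℝ) ^ (ε / 4) = 1 := by
        rw [← Real.rpow_add hPr]; simp
      have f3 : 0 < (P : ℝ) ^ (-(ε / 4)) := Real.rpow_pos_of_pos hPr _
      have f4 : 0 < (P : ℝ) ^ (-(ε / 2)) := Real.rpow_pos_of_pos hPr _
      have f5 : (P : ℝ) ^ (-(ε / 2)) = (P : ℝ) ^ (-(ε / 4)) * (P : ℝ) ^ (-(ε / 4)) := by
        rw [← Real.rpow_add hPr]; congr 1; ring
      have f6 : Real.sqrt P * (P : ℝ) ^ (ε / 2) ≤ Real.sqrt N := by
        have : Real.sqrt P * (P : ℝ) ^ (ε / 2) = Real.sqrt ((P : ℝ) ^ (1 + ε)) := by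
          rw [Real.sqrt_eq_rpow, Real.sqrt_eq_rpow, ← Real.rpow_mul hPr.le, ← Real.rpow_add hPr]
          congr 1
          ring
        rw [this]
        exact Real.sqrt_le_sqrt hAB
      have f7 : Real.sqrt P ≤ Real.sqrt N * (P : ℝ) ^ (-(ε / 2)) := by
        calc Real.sqrt P = Real.sqrt P * (P : ℝ) ^ (ε / 2) * (P : ℝ) ^ (-(ε / 2)) := by
              rw [mul_assoc, mul_comm ((P : ℝ) ^ (ε / 2)), f1, mul_one]
          _ ≤ _ := mul_le_mul_of_nonneg_right f6 f4.le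
      have f8 : Real.sqrt N * Real.sqrt N = N := Real.mul_self_sqrt hN0.le
      have f9 : (D : ℝ) * (P : ℝ) ^ (-(ε / 4)) ≤ 1 / 2 := by
        have g1 : (2 * D + 1 : ℝ) * (P : ℝ) ^ (-(ε / 4)) ≤ 1 := by
          push_cast at hbig
          calc (2 * D + 1 : ℝ) * (P : ℝ) ^ (-(ε / 4)) ≤ (P : ℝ) ^ (ε / 4) * (P : ℝ) ^ (-(ε / 4)) :=
                mul_le_mul_of_nonneg_right hbig f3.le
            _ = 1 := by rw [mul_comm]; exact f2
        nlinarith
      calc (D : ℝ) * Real.sqrt P * Real.sqrt N ≤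
            D * (Real.sqrt N * (P : ℝ) ^ (-(ε / 2))) * Real.sqrt N := by gcongr
        _ = ((D : ℝ) * (P : ℝ) ^ (-(ε / 4))) * (Real.sqrt N * Real.sqrt N) *
              (P : ℝ) ^ (-(ε / 4)) := by rw [f5]; ring
        _ ≤ (1 / 2) * N * (P : ℝ) ^ (-(ε / 4)) := by
            rw [f8]
            gcongr
        _ ≤ s.card * (P : ℝ) ^ (-(ε / 4)) := by
            apply mul_le_mul_of_nonneg_right _ f3.le
            linarith)
  rw [hs, mem_filter, mem_product] at hp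
  exact ⟨p.1, hp.1.1, p.2, hp.1.2, hp.2, hfar⟩

end Pool.Agent.H763_mp
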